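import Pool.Agent.H.MP_03bc95_nt.N.Par
import Pool.Agent.H.MP_03bc95_nt.Five

open Finset

namespace Pool.Agent.H.MP_03bc95_nt

/-- `#Lam3 · p ≤ 15625 h^4` in rank three: see the proof of `lam3_rank3t` in `TC.lean`. -/
theorem lam3_rank3p {p : ℕ} [Fact p.Prime] {S : ℤ} {h m : ℕ} (H : Hyp p S h m) (ρ : ZMod p)
    (h3 : ∃ a ∈ Lam3 p S h ρ, ∃ b ∈ Lam3 p S h ρ, ∃ c ∈ Lam3 p S h ρ, det3 a b c ≠ 0) :
    ((Lam3 p S h ρ).card : ℝ) * p ≤ 15625 * (h : ℝ) ^ 4 := by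
  obtain ⟨a, ha, b, hb, c, hc, hd⟩ := h3
  have key := pack3 (p := p) ((S : ℤ) : ZMod p) 1 (-ρ) (Or.inr (Or.inl one_ne_zero))
    (Lam3 p S h ρ) (3 * h) (3 * (h : ℝ) ^ 2) (3 * h) (fun f hf => by
      rw [La.mem_Lam3] at hf
      obtain ⟨h1, h2, h3, h4⟩ := hf
      refine ⟨by exact_mod_cast h1, by exact_mod_cast h2, by exact_mod_cast h3, ?_⟩
      push_cast at h4
      linear_combination h4) a b c ha hb hc hd
  have hh : (1 : ℝ) ≤ h := by exact_mod_cast H.hh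
  have h2 : (1 : ℝ) ≤ (h : ℝ) ^ 2 := one_le_pow₀ hh
  have e1 : (8 * (3 * (h : ℝ)) + 1) ≤ 25 * h := by linarith
  have e2 : (8 * (3 * (h : ℝ) ^ 2) + 1) ≤ 25 * (h : ℝ) ^ 2 := by linarith
  have e3 : (8 * (3 * (h : ℝ)) + 1) * (8 * (3 * (h : ℝ) ^ 2) + 1) * (8 * (3 * (h : ℝ)) + 1)
      ≤ (25 * h) * (25 * (h : ℝ) ^ 2) * (25 * h) := by
    gcongr
  calc ((Lam3 p S h ρ).card : ℝ) * p = (p : ℝ) * (Lam3 p S h ρ).card := by ring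
    _ ≤ _ := key
    _ ≤ _ := e3
    _ = 15625 * (h : ℝ) ^ 4 := by ring

theorem five_rank3n {L Φ D k h p : ℝ} (hL0 : 0 < L) (hΦ1 : 1 ≤ Φ) (hk : 0 < k) (hp : 0 < p)
    (hD : 1 ≤ D) (hDΦ : D ≤ Φ) (hΦk : h / k ≤ Φ ^ 2) (hLh : L ≤ h) (hLp : L * p ≤ 15625 * h ^ 4)
    (hY : h ^ 8 ≤ D ^ 3 * p ^ 2) :
    (7 / (10000 * Φ / L)) ^ 3 * (1 + (10000 * Φ / L) / k) < L := by
  have e : (7 / (10000 * Φ / L)) ^ 3 * (1 + (10000 * Φ / L) / k) =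
      343 * (L ^ 2 / Φ ^ 3 / 10 ^ 12 + L / k / Φ ^ 2 / 10 ^ 8) * L := by
    field_simp
    ring
  rw [e]
  have h0 : L ^ 2 * p ^ 2 ≤ (15625 ^ 2 * D ^ 3) * p ^ 2 := by
    calc L ^ 2 * p ^ 2 = (L * p) ^ 2 := by ring
      _ ≤ (15625 * h ^ 4) ^ 2 := pow_le_pow_left₀ (by positivity) hLp 2
      _ = 15625 ^ 2 * h ^ 8 := by ring
      _ ≤ 15625 ^ 2 * (D ^ 3 * p ^ 2) := by linarith
      _ = (15625 ^ 2 * D ^ 3) * p ^ 2 := by ring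
  have h0' : L ^ 2 ≤ 15625 ^ 2 * D ^ 3 := le_of_mul_le_mul_right h0 (by positivity)
  have h1 : L ^ 2 / Φ ^ 3 ≤ 15625 ^ 2 := by
    rw [div_le_iff₀ (by positivity)]
    calc L ^ 2 ≤ 15625 ^ 2 * D ^ 3 := h0'
      _ ≤ 15625 ^ 2 * Φ ^ 3 := by gcongr
  have h2 : L / k / Φ ^ 2 ≤ 1 := by
    rw [div_le_one (by positivity)]
    calc L / k ≤ h / k := by gcongr
      _ ≤ Φ ^ 2 := hΦk
  have h3 : 343 * (L ^ 2 / Φ ^ 3 / 10 ^ 12 + L / k / Φ ^ 2 / 10 ^ 8) < 1 := by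
    have h4 : L ^ 2 / Φ ^ 3 / 10 ^ 12 ≤ 15625 ^ 2 / 10 ^ 12 := by gcongr
    have h5 : L / k / Φ ^ 2 / 10 ^ 8 ≤ 1 / 10 ^ 8 := by gcongr
    norm_num at h4 h5 ⊢
    linarith
  nlinarith

theorem five_planen {L Φ D τ k h : ℝ} (hL0 : 0 < L) (hΦ1 : 1 ≤ Φ) (hk : 0 < k) (hh : 0 ≤ h)
    (hD : 1 ≤ D) (hDΦ : D ≤ Φ) (hτ : 1 ≤ τ) (hτD : h * τ ≤ D ^ 2) (hΦk : 1 ≤ Φ * k)
    (hLh : L ≤ 7 * h * (6 * τ + 1)) :
    (14 / (10000 * Φ / L)) ^ 2 * (1 + (10000 * Φ / L) / k) < L := by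
  have e : (14 / (10000 * Φ / L)) ^ 2 * (1 + (10000 * Φ / L) / k) =
      196 * (L / Φ ^ 2 / 10 ^ 8 + 1 / (Φ * k) / 10 ^ 4) * L := by
    field_simp
    ring
  rw [e]
  have h1 : L / Φ ^ 2 ≤ 49 := by
    rw [div_le_iff₀ (by positivity)]
    calc L ≤ 7 * h * (6 * τ + 1) := hLh
      _ ≤ 7 * h * (7 * τ) := by
        gcongr
        linarith
      _ = 49 * (h * τ) := by ring
      _ ≤ 49 * D ^ 2 := by linarith
      _ ≤ 49 * Φ ^ 2 := by gcongr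
  have h2 : 1 / (Φ * k) ≤ 1 := by
    rw [div_le_one (by positivity)]
    exact hΦk
  have h3 : 196 * (L / Φ ^ 2 / 10 ^ 8 + 1 / (Φ * k) / 10 ^ 4) < 1 := by
    have h4 : L / Φ ^ 2 / 10 ^ 8 ≤ 49 / 10 ^ 8 := by gcongr
    have h5 : 1 / (Φ * k) / 10 ^ 4 ≤ 1 / 10 ^ 4 := by gcongr
    norm_num at h4 h5 ⊢
    linarith
  nlinarith

/-- Lemma 5 with parameters (copy of `lemma5` in `Five.lean`; see also `rank3_contra` in `TC.lean`).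
`L = #Lam3`, `Φ = D + √(h/k)`, `κ = 10000 Φ / L`. If `L ≤ 10000 Φ` use `sol_le_two_lam`. If there is
`f ∈ Lam` with `f_u ≠ 0` of size `≤ κ`, use `lemma1`. If not: rank three: `L ≤ h` (`lam3_rank3`),
`L^2 p^2 ≤ 15625^2 h^8 ≤ 15625^2 D^3 p^2`, so `L^2 ≤ 15625^2 Φ^3`, `h/k ≤ Φ^2`, and `cells3` gives
`1 ≤ 343 (L^2/(10^12 Φ^3) + L/(10^8 Φ^2 k)) ≤ 0.09`. Plane (`exists_normal`, `cells2`):
`1 ≤ 196 (L/(10^8 Φ^2) + 1/(10^4 Φ k))` with `L ≤ 7 h (6 τ + 1) ≤ 49 h τ ≤ 49 D^2` (`lam3_le` with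
`t = τ`) and `Φ k ≥ 1`. -/
theorem lemma5n {p : ℕ} [Fact p.Prime] {S : ℤ} {h m : ℕ} (H : Hyp p S h m) (ρ : ZMod p)
    (hρ : ρ ≠ 0) (D τ : ℝ) (hD : 1 ≤ D) (hτ : 1 ≤ τ) (hτD : (h : ℝ) * τ ≤ D ^ 2)
    (hY : (h : ℝ) ^ 8 ≤ D ^ 3 * (p : ℝ) ^ 2) (hL : LBS p S h (1 / τ))
    (k : ℝ) (hk : 1 / (h : ℝ) ≤ k) (hR : LBR p h ρ k) :
    ((Sol p S h ρ).card : ℝ) ≤ 20000 * m * (D + Real.sqrt (h / k)) + (Triv p S h ρ).card := by
  have hh : (1 : ℝ) ≤ h := by exact_mod_cast H.hh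
  have hh0 : (0 : ℝ) < h := by linarith
  have hp0 : (0 : ℝ) < p := by exact_mod_cast (Fact.out : p.Prime).pos
  have hk0 : 0 < k := lt_of_lt_of_le (by positivity) hk
  have hhk : 1 ≤ k * h := by rwa [div_le_iff₀ hh0] at hk
  have hQ0 : 0 ≤ Real.sqrt (h / k) := Real.sqrt_nonneg _
  have hQ2 : Real.sqrt (h / k) ^ 2 = h / k := Real.sq_sqrt (by positivity)
  have hQk : 1 ≤ Real.sqrt (h / k) * k := by
    have h1 : (1 / k) ≤ Real.sqrt (h / k) := by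
      apply Real.le_sqrt_of_sq_le
      rw [div_pow, one_pow, div_le_div_iff₀ (by positivity) hk0]
      nlinarith
    rwa [div_le_iff₀ hk0] at h1
  generalize Real.sqrt (h / k) = Q at hQ0 hQ2 hQk
  obtain ⟨Φ, hΦ⟩ : ∃ Φ, Φ = D + Q := ⟨_, rfl⟩
  rw [← hΦ]
  have hΦD : D ≤ Φ := by linarith
  have hΦ1 : 1 ≤ Φ := by linarith
  have hΦQ : Q ≤ Φ := by linarith
  have hm : 2 ≤ m := by
    have h1 := H.hm 1 one_ne_zero (by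
      have : (1 : ℤ) ≤ (h : ℤ) ^ 6 := by
        have : (1 : ℤ) ≤ h := by exact_mod_cast H.hh
        exact one_le_pow₀ this
      rw [abs_one]
      linarith)
    simpa using h1
  have hm' : (2 : ℝ) ≤ m := by exact_mod_cast hm
  have hT : (0 : ℝ) ≤ (Triv p S h ρ).card := Nat.cast_nonneg _
  by_cases hc : ((Lam3 p S h ρ).card : ℝ) ≤ 10000 * Φ
  · have h1 : ((Sol p S h ρ).card : ℝ) ≤ 2 * (Lam3 p S h ρ).card := by
      exact_mod_cast sol_le_two_lam H ρ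
    have h2 : 20000 * Φ ≤ 20000 * m * Φ := by nlinarith
    linarith
  · push Not at hc
    have hL0 : (0 : ℝ) < (Lam3 p S h ρ).card := by linarith
    have hκ : 0 < 10000 * Φ / (Lam3 p S h ρ).card := by positivity
    have hκ1 : 10000 * Φ / (Lam3 p S h ρ).card ≤ 1 := by
      rw [div_le_one hL0]
      exact hc.le
    by_cases hf : ∃ f : ℤ × ℤ × ℤ, InLam p S ρ f ∧
        |(f.1 : ℝ)| ≤ 10000 * Φ / (Lam3 p S h ρ).card * h ∧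
        |(f.2.1 : ℝ)| ≤ 10000 * Φ / (Lam3 p S h ρ).card * (h : ℝ) ^ 2 ∧
        |(f.2.2 : ℝ)| ≤ 10000 * Φ / (Lam3 p S h ρ).card * h ∧ f.1 ≠ 0
    · obtain ⟨f, hf0, hf1, hf2, hf3, hfu⟩ := hf
      have h1 := lemma1 H ρ hρ f _ hκ hκ1 hf0 hfu hf1 hf2 hf3
      have e : 2 * (m : ℝ) * (10000 * Φ / (Lam3 p S h ρ).card) * (Lam3 p S h ρ).card =
          20000 * m * Φ := by
        field_simp
        ring
      rw [e] at h1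
      exact h1
    · exfalso
      have hno : ∀ f : ℤ × ℤ × ℤ, InLam p S ρ f →
          |(f.1 : ℝ)| ≤ 10000 * Φ / (Lam3 p S h ρ).card * h →
          |(f.2.1 : ℝ)| ≤ 10000 * Φ / (Lam3 p S h ρ).card * (h : ℝ) ^ 2 →
          |(f.2.2 : ℝ)| ≤ 10000 * Φ / (Lam3 p S h ρ).card * h → f.1 = 0 := by
        intro f h0 h1 h2 h3
        by_contra hne
        exact hf ⟨f, h0, h1, h2, h3, hne⟩
      by_cases h3 : ∃ a ∈ Lam3 p S h ρ, ∃ b ∈ Lam3 p S h ρ, ∃ c ∈ Lam3 p S h ρ, det3 a b c ≠ 0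
      · have h4 := lam3_rank3 H ρ h3
        have h4' : ((Lam3 p S h ρ).card : ℝ) ≤ h := by exact_mod_cast h4
        have h5 := cells3 H ρ k _ hk0 hκ hκ1 hR hno
        have h6 := five_rank3n hL0 hΦ1 hk0 hp0 hD hΦD (by rw [← hQ2]; gcongr) h4'
          (lam3_rank3p H ρ h3) hY
        exact absurd h5 (not_le.2 h6)
      · have h3' : ∀ a ∈ Lam3 p S h ρ, ∀ b ∈ Lam3 p S h ρ, ∀ c ∈ Lam3 p S h ρ,
            det3 a b c = 0 := by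
          intro a ha b hb c hc
          by_contra hne
          exact h3 ⟨a, ha, b, hb, c, hc, hne⟩
        obtain ⟨n, hn, hpl⟩ := exists_normal _ h3'
        have h4 := lam3_le H ρ τ hτ hL
        have h5 := cells2 H ρ k _ hk0 hκ hκ1 hR hno n hn hpl
        have h6 := five_planen hL0 hΦ1 hk0 hh0.le hD hΦD hτ hτD (by nlinarith) h4
        exact absurd h5 (not_le.2 h6)

end Pool.Agent.H.MP_03bc95_nt
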