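import Pool.Agent.H.MP_03bc95_nt.N.A5
import Pool.Agent.H.MP_03bc95_nt.N.B6
import Pool.Agent.H.MP_03bc95_nt.Eb

open Finset

namespace Pool.Agent.H.MP_03bc95_nt

/-- Contribution of a layer (copy of `layer_le` in `Eb.lean`). `s = √(h/κ)`, `κ s^2 = h`, `s ≤ h ≤ h D`;
`κ h τ s ≤ h D` (square: `κ τ h^2 τ h ≤ h^2 D^2`); `κ^3 h^5 s / p ≤ Hn^5 h^3 / p ≤ h D` (square of
`κ^3 h^5 s` is `κ^5 h^11 ≤ h^11 / τ^5 = Hn^10 h^6`). -/
theorem layer_len {p h Hn : ℕ} (P : Par p h Hn) (κ m : ℝ) (hκ0 : 0 < κ) (hκ : 1 / (h : ℝ) ≤ κ)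
    (hκ1 : κ ≤ 1 / Tn h Hn) (hm : 2 ≤ m) :
    (1 + 729 * κ ^ 3 * (h : ℝ) ^ 5 / p + m * (1 + 3 * κ * h * Tn h Hn)) *
      (50000 * m * Real.sqrt (h / κ)) ≤ 18500000 * m ^ 2 * (h * Dn h Hn) := by
  have hm0 : 0 < m := by linarith
  have hH := P.one_le
  have hh1 := P.h1
  have ht := P.one_le_T
  have hD := P.one_le_D
  have hTD := P.T_le_D
  have hT2 := P.hT_eq
  have hHD := P.HD_eq
  have hDT := P.D_eq
  have h6 := P.six_le
  have hH0 : (0 : ℝ) < Hn := by linarith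
  have hh0 : (0 : ℝ) < h := by linarith
  have hp0 : (0 : ℝ) < p := lt_of_lt_of_le (by positivity) h6
  generalize Dn h Hn = D at *
  generalize Tn h Hn = τ at *
  have hτ0 : 0 < τ := by linarith
  have hD0 : 0 < D := by linarith
  obtain ⟨s, hs⟩ : ∃ s, s = Real.sqrt ((h : ℝ) / κ) := ⟨_, rfl⟩
  rw [← hs]
  have hs0 : 0 ≤ s := by rw [hs]; exact Real.sqrt_nonneg _
  have hs2 : κ * s ^ 2 = h := by
    rw [hs, Real.sq_sqrt (by positivity)]
    field_simp
  have hkt : κ * τ ≤ 1 := by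
    rw [le_div_iff₀ hτ0] at hκ1
    exact hκ1
  have hkh : 1 ≤ κ * h := by
    rw [div_le_iff₀ hh0] at hκ
    exact hκ
  have hst : s ≤ h := by
    apply le_of_sq_le_sq _ hh0.le
    have : s ^ 2 * 1 ≤ s ^ 2 * (κ * h) := mul_le_mul_of_nonneg_left hkh (sq_nonneg s)
    calc s ^ 2 = s ^ 2 * 1 := by ring
      _ ≤ s ^ 2 * (κ * h) := this
      _ = (κ * s ^ 2) * h := by ring
      _ = (h : ℝ) ^ 2 := by rw [hs2]; ring
  have hsD : s ≤ h * D := by nlinarith
  have hu : κ * h * τ * s ≤ h * D := by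
    apply le_of_sq_le_sq _ (by positivity)
    calc (κ * h * τ * s) ^ 2 = κ * τ * (h * τ) * h * (κ * s ^ 2) := by ring
      _ = (κ * τ) * ((h : ℝ) ^ 2 * D ^ 2) := by rw [hs2, hT2]; ring
      _ ≤ 1 * ((h : ℝ) ^ 2 * D ^ 2) := mul_le_mul_of_nonneg_right hkt (by positivity)
      _ = (h * D) ^ 2 := by ring
  have hhT : (h : ℝ) = Hn ^ 2 * τ := by
    rw [← hHD, hDT]
    ring
  have hv0 : κ ^ 3 * (h : ℝ) ^ 5 * s ≤ (h : ℝ) ^ 3 * Hn ^ 5 := by
    apply le_of_sq_le_sq _ (by positivity)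
    have h5 : (κ * τ) ^ 5 ≤ 1 := pow_le_one₀ (by positivity) hkt
    calc (κ ^ 3 * (h : ℝ) ^ 5 * s) ^ 2 = κ ^ 5 * (h : ℝ) ^ 10 * (κ * s ^ 2) := by ring
      _ = κ ^ 5 * (h : ℝ) ^ 5 * (h : ℝ) ^ 6 := by rw [hs2]; ring
      _ = κ ^ 5 * (Hn ^ 2 * τ) ^ 5 * (h : ℝ) ^ 6 := by rw [← hhT]
      _ = (κ * τ) ^ 5 * ((h : ℝ) ^ 6 * Hn ^ 10) := by ring
      _ ≤ 1 * ((h : ℝ) ^ 6 * Hn ^ 10) := mul_le_mul_of_nonneg_right h5 (by positivity)
      _ = ((h : ℝ) ^ 3 * Hn ^ 5) ^ 2 := by ring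
  have hv1 : (h : ℝ) ^ 3 * Hn ^ 5 ≤ h * D * p := by
    have e1 : (h : ℝ) ^ 3 * Hn ^ 5 = h * D * (Hn ^ 6 * h) := by
      calc (h : ℝ) ^ 3 * Hn ^ 5 = h * h * Hn ^ 5 * h := by ring
        _ = h * (Hn * D) * Hn ^ 5 * h := by rw [hHD]
        _ = h * D * (Hn ^ 6 * h) := by ring
    rw [e1]
    exact mul_le_mul_of_nonneg_left h6 (by positivity)
  have hv : κ ^ 3 * (h : ℝ) ^ 5 / p * s ≤ h * D := by
    have e1 : κ ^ 3 * (h : ℝ) ^ 5 / p * s = κ ^ 3 * (h : ℝ) ^ 5 * s / p := by ring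
    rw [e1, div_le_iff₀ hp0]
    exact hv0.trans hv1
  have e : (1 + 729 * κ ^ 3 * (h : ℝ) ^ 5 / p + m * (1 + 3 * κ * h * τ)) * (50000 * m * s)
      = 50000 * m * (s + 729 * (κ ^ 3 * (h : ℝ) ^ 5 / p * s) + m * s +
        3 * m * (κ * h * τ * s)) := by ring
  rw [e]
  have hx : 0 < h * D := by positivity
  have h2 : m * s ≤ m * (h * D) := mul_le_mul_of_nonneg_left hsD hm0.le
  have h4 : m * (κ * h * τ * s) ≤ m * (h * D) := mul_le_mul_of_nonneg_left hu hm0.le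
  have h7' : 2 * (h * D) ≤ m * (h * D) := mul_le_mul_of_nonneg_right hm hx.le
  have h7 : s + 729 * (κ ^ 3 * (h : ℝ) ^ 5 / p * s) + m * s + 3 * m * (κ * h * τ * s) ≤
      370 * (m * (h * D)) := by
    linarith
  calc 50000 * m * (s + 729 * (κ ^ 3 * (h : ℝ) ^ 5 / p * s) + m * s + 3 * m * (κ * h * τ * s))
      ≤ 50000 * m * (370 * (m * (h * D))) := mul_le_mul_of_nonneg_left h7 (by positivity)
    _ = 18500000 * m ^ 2 * (h * D) := by ring

/-- Bound for one `y` (copy of `sol_y_le` in `Eb.lean`): `lemma5n` with `D = Dn`, `τ = Tn`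
(`P.hT_eq`, `P.pow8`, `h^3 ≤ p` from `H.hp`). Base case `k = 1/τ`: `√(h τ) = D`, `2 · 20000 m D`.
Otherwise `κ = 2^{-i}/τ`, `k = max (κ/2) (1/h)`: `D ≤ √(h/κ)`, `√(2h/κ) ≤ (3/2) √(h/κ)`,
`20000 m (5/2) √(h/κ) = 50000 m √(h/κ)`. -/
theorem sol_y_len {p : ℕ} [Fact p.Prime] {S : ℤ} {h m Hn : ℕ} (H : Hyp p S h m)
    (P : Par p h Hn) (l : ZMod p) (hl : l ≠ 0) (hL : LBS p S h (1 / Tn h Hn))
    (y : ℤ) (hy : y ∈ Icc (1 : ℤ) h) :
    ((Sol p S h (l * ((S + y : ℤ) : ZMod p))).card : ℝ) ≤ 40000 * m * Dn h Hn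
      + ∑ j ∈ range (Nat.log 2 h + 1),
          (if y ∈ GSet p S h l (1 / 2 ^ j / Tn h Hn) ∧ 1 / (h : ℝ) < 1 / 2 ^ j / Tn h Hn then
            50000 * m * Real.sqrt (h / (1 / 2 ^ j / Tn h Hn)) else 0)
      + (Triv p S h (l * ((S + y : ℤ) : ZMod p))).card := by
  classical
  have ht := P.one_le_T
  have hD := P.one_le_D
  have hT2 := P.hT_eq
  have hTD := P.T_le_D
  have hDh := P.D_le_h
  have hp3 : h ^ 3 ≤ p := by
    have h1 := H.hp
    omega
  have h8 := P.pow8 hp3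
  generalize Dn h Hn = D at *
  generalize Tn h Hn = t at *
  have ht0 : 0 < t := by linarith
  have hD0 : 0 < D := by linarith
  have hh : (1 : ℝ) ≤ h := by exact_mod_cast H.hh
  have hh0 : (0 : ℝ) < h := by linarith
  have hth : t ≤ h := hTD.trans hDh
  have hy' := Finset.mem_Icc.mp hy
  obtain ⟨ρ, hρdef⟩ : ∃ ρ, ρ = l * ((S + y : ℤ) : ZMod p) := ⟨_, rfl⟩
  have hρ : ρ ≠ 0 := by
    rw [hρdef]
    exact mul_ne_zero hl (H.hS y hy'.1 hy'.2)
  have hm0 : (0 : ℝ) ≤ m := Nat.cast_nonneg m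
  have hsum0 : 0 ≤ ∑ j ∈ range (Nat.log 2 h + 1),
          (if y ∈ GSet p S h l (1 / 2 ^ j / t) ∧ 1 / (h : ℝ) < 1 / 2 ^ j / t then
            50000 * m * Real.sqrt (h / (1 / 2 ^ j / t)) else 0) := by
    apply Finset.sum_nonneg
    intro j _
    split_ifs
    · positivity
    · exact le_refl _
  rw [← hρdef]
  let Q : ℕ → Prop := fun j => LBR p h ρ (max (1 / 2 ^ j / t) (1 / (h : ℝ)))
  have hex : ∃ j, Q j := by
    refine ⟨h, ?_⟩
    have hle : 1 / 2 ^ h / t ≤ 1 / (h : ℝ) := by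
      rw [div_div]
      apply one_div_le_one_div_of_le hh0
      have h2 : (h : ℝ) < 2 ^ h := by exact_mod_cast Nat.lt_two_pow_self
      have : (2 : ℝ) ^ h * 1 ≤ 2 ^ h * t := mul_le_mul_of_nonneg_left ht (by positivity)
      linarith
    change LBR p h ρ (max (1 / 2 ^ h / t) (1 / (h : ℝ)))
    rw [max_eq_right hle]
    exact lbr_one_div H ρ
  have hj : Q (Nat.find hex) := Nat.find_spec hex
  rcases Nat.eq_zero_or_pos (Nat.find hex) with h0 | hpos
  · rw [h0] at hj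
    have hle : 1 / (h : ℝ) ≤ 1 / t := one_div_le_one_div_of_le ht0 hth
    have hj' : LBR p h ρ (1 / t) := by
      have : max (1 / 2 ^ 0 / t) (1 / (h : ℝ)) = 1 / t := by
        rw [pow_zero, div_one, max_eq_left hle]
      change LBR p h ρ (max (1 / 2 ^ 0 / t) (1 / (h : ℝ))) at hj
      rwa [this] at hj
    have h5 := lemma5n H ρ hρ D t hD ht hT2.le h8 hL (1 / t) hle hj'
    have hsq : Real.sqrt (h / (1 / t)) = D := by
      have : (h : ℝ) / (1 / t) = D ^ 2 := by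
        rw [← hT2]
        field_simp
      rw [this, Real.sqrt_sq hD0.le]
    rw [hsq] at h5
    have : 20000 * (m : ℝ) * (D + D) = 40000 * m * D := by ring
    rw [this] at h5
    linarith
  · obtain ⟨i, hi⟩ : ∃ i, Nat.find hex = i + 1 := ⟨Nat.find hex - 1, by omega⟩
    have hni : ¬ Q i := Nat.find_min hex (by omega)
    rw [hi] at hj
    have hlt : 1 / (h : ℝ) < 1 / 2 ^ i / t := by
      by_contra hcon
      push Not at hcon
      apply hni
      change LBR p h ρ (max (1 / 2 ^ i / t) (1 / (h : ℝ)))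
      rw [max_eq_right hcon]
      exact lbr_one_div H ρ
    have hG : y ∈ GSet p S h l (1 / 2 ^ i / t) := by
      unfold GSet
      rw [Finset.mem_filter]
      refine ⟨hy, ?_⟩
      rw [← hρdef]
      intro hc
      apply hni
      change LBR p h ρ (max (1 / 2 ^ i / t) (1 / (h : ℝ)))
      rw [max_eq_left hlt.le]
      exact hc
    have hilog : i ≤ Nat.log 2 h := by
      apply Nat.le_log_of_pow_le (by norm_num)
      have h1 : (2 : ℝ) ^ i * t < h := by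
        rw [div_div] at hlt
        exact (one_div_lt_one_div hh0 (by positivity)).mp hlt
      have h2 : (2 : ℝ) ^ i * 1 ≤ 2 ^ i * t := mul_le_mul_of_nonneg_left ht (by positivity)
      have h3 : (2 : ℝ) ^ i ≤ h := by linarith
      exact_mod_cast h3
    obtain ⟨κ, hκdef⟩ : ∃ κ : ℝ, κ = 1 / 2 ^ i / t := ⟨_, rfl⟩
    have hκ0 : 0 < κ := by rw [hκdef]; positivity
    have hκt : κ * t ≤ 1 := by
      rw [hκdef, div_mul_cancel₀ _ ht0.ne']
      rw [div_le_one (by positivity)]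
      exact one_le_pow₀ (by norm_num)
    have hk2 : κ / 2 ≤ max (1 / 2 ^ (i + 1) / t) (1 / (h : ℝ)) := by
      apply le_trans _ (le_max_left _ _)
      rw [hκdef, pow_succ]
      apply le_of_eq
      field_simp
    have h5 := lemma5n H ρ hρ D t hD ht hT2.le h8 hL (max (1 / 2 ^ (i + 1) / t) (1 / (h : ℝ)))
      (le_max_right _ _) hj
    have hs2 : D ≤ Real.sqrt (h / κ) := by
      apply Real.le_sqrt_of_sq_le
      rw [le_div_iff₀ hκ0, ← hT2]
      calc h * t * κ = h * (κ * t) := by ring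
        _ ≤ h * 1 := mul_le_mul_of_nonneg_left hκt (by positivity)
        _ = h := by ring
    have hs3 : Real.sqrt (h / max (1 / 2 ^ (i + 1) / t) (1 / (h : ℝ)))
        ≤ (3 / 2) * Real.sqrt (h / κ) := by
      have h1 : (h : ℝ) / max (1 / 2 ^ (i + 1) / t) (1 / (h : ℝ)) ≤ (3 / 2) ^ 2 * (h / κ) := by
        calc (h : ℝ) / max (1 / 2 ^ (i + 1) / t) (1 / (h : ℝ)) ≤ h / (κ / 2) :=
              div_le_div_of_nonneg_left hh0.le (by positivity) hk2
          _ = 2 * (h / κ) := by field_simp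
          _ ≤ (3 / 2) ^ 2 * (h / κ) := by
              apply mul_le_mul_of_nonneg_right (by norm_num)
              positivity
      calc Real.sqrt (h / max (1 / 2 ^ (i + 1) / t) (1 / (h : ℝ)))
          ≤ Real.sqrt ((3 / 2) ^ 2 * (h / κ)) := Real.sqrt_le_sqrt h1
        _ = (3 / 2) * Real.sqrt (h / κ) := by
            rw [Real.sqrt_mul (by positivity), Real.sqrt_sq (by norm_num)]
    have hmain : ((Sol p S h ρ).card : ℝ) ≤ 50000 * m * Real.sqrt (h / κ)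
        + (Triv p S h ρ).card := by
      have h6 : D + Real.sqrt (h / max (1 / 2 ^ (i + 1) / t) (1 / (h : ℝ)))
          ≤ (5 / 2) * Real.sqrt (h / κ) := by linarith
      have h7 : 20000 * (m : ℝ) * (D + Real.sqrt (h / max (1 / 2 ^ (i + 1) / t) (1 / (h : ℝ))))
          ≤ 20000 * m * ((5 / 2) * Real.sqrt (h / κ)) :=
        mul_le_mul_of_nonneg_left h6 (by positivity)
      have h8 : 20000 * (m : ℝ) * ((5 / 2) * Real.sqrt (h / κ)) =
          50000 * m * Real.sqrt (h / κ) := by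
        ring
      linarith
    have hone : 50000 * (m : ℝ) * Real.sqrt (h / κ) ≤ ∑ j ∈ range (Nat.log 2 h + 1),
          (if y ∈ GSet p S h l (1 / 2 ^ j / t) ∧ 1 / (h : ℝ) < 1 / 2 ^ j / t then
            50000 * m * Real.sqrt (h / (1 / 2 ^ j / t)) else 0) := by
      have h9 := Finset.single_le_sum (s := range (Nat.log 2 h + 1))
        (f := fun j => (if y ∈ GSet p S h l (1 / 2 ^ j / t) ∧ 1 / (h : ℝ) < 1 / 2 ^ j / t then
            50000 * (m : ℝ) * Real.sqrt (h / (1 / 2 ^ j / t)) else 0))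
        (fun j _ => by
          split_ifs
          · positivity
          · exact le_refl _) (Finset.mem_range.mpr (by omega : i < Nat.log 2 h + 1))
      rw [if_pos ⟨hG, hlt⟩] at h9
      rw [hκdef]
      exact h9
    have hpos : 0 ≤ 40000 * (m : ℝ) * D := by positivity
    linarith

/-- Copy of `e4_le` in `Eb.lean` (`e4_eq`, `sol_y_len`, `lemma6n`, `layer_len`, `triv_sum`, `r2_le`
with `t = Tn`). -/
theorem e4n {p : ℕ} [Fact p.Prime] {S : ℤ} {h m Hn : ℕ} (H : Hyp p S h m) (P : Par p h Hn)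
    (l : ZMod p) (hl : l ≠ 0) (hl1 : l ≠ 1) (hL : LBS p S h (1 / Tn h Hn)) :
    (E4 p S h l : ℝ) ≤ 20000000 * (m : ℝ) ^ 2 * (h * Dn h Hn) * (1 + Nat.log 2 h) := by
  classical
  have ht := P.one_le_T
  have hD := P.one_le_D
  have hTD := P.T_le_D
  have ht0 : 0 < Tn h Hn := by linarith
  have hD0 : 0 < Dn h Hn := by linarith
  have hh : (1 : ℝ) ≤ h := by exact_mod_cast H.hh
  have hh0 : (0 : ℝ) < h := by linarith
  have hm2 : (2 : ℝ) ≤ m := by exact_mod_cast two_le_of_hyp H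
  have hm1 : (1 : ℝ) ≤ m := by linarith
  have hcard : (((Icc (1 : ℤ) h).card : ℕ) : ℝ) = h := by
    simp
  rw [e4_eq, Nat.cast_sum]
  have h1 : ∑ y ∈ Icc (1 : ℤ) h, ((Sol p S h (l * ((S + y : ℤ) : ZMod p))).card : ℝ)
      ≤ ∑ y ∈ Icc (1 : ℤ) h, (40000 * m * Dn h Hn
      + ∑ j ∈ range (Nat.log 2 h + 1),
          (if y ∈ GSet p S h l (1 / 2 ^ j / Tn h Hn) ∧ 1 / (h : ℝ) < 1 / 2 ^ j / Tn h Hn then
            50000 * m * Real.sqrt (h / (1 / 2 ^ j / Tn h Hn)) else 0)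
      + (Triv p S h (l * ((S + y : ℤ) : ZMod p))).card) :=
    Finset.sum_le_sum fun y hy => sol_y_len H P l hl hL y hy
  rw [Finset.sum_add_distrib, Finset.sum_add_distrib, Finset.sum_const, nsmul_eq_mul, hcard,
    Finset.sum_comm] at h1
  have h2 : ∀ j ∈ range (Nat.log 2 h + 1), ∑ y ∈ Icc (1 : ℤ) h,
      (if y ∈ GSet p S h l (1 / 2 ^ j / Tn h Hn) ∧ 1 / (h : ℝ) < 1 / 2 ^ j / Tn h Hn then
            50000 * (m : ℝ) * Real.sqrt (h / (1 / 2 ^ j / Tn h Hn)) else 0)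
      ≤ 18500000 * (m : ℝ) ^ 2 * (h * Dn h Hn) := by
    intro j _
    by_cases hj : 1 / (h : ℝ) < 1 / 2 ^ j / Tn h Hn
    · have hκ0 : (0 : ℝ) < 1 / 2 ^ j / Tn h Hn := by positivity
      have hκt : (1 : ℝ) / 2 ^ j / Tn h Hn ≤ 1 / Tn h Hn := by
        apply div_le_div_of_nonneg_right _ ht0.le
        rw [div_le_one (by positivity)]
        exact one_le_pow₀ (by norm_num)
      have hκ1 : (1 : ℝ) / 2 ^ j / Tn h Hn ≤ 1 := hκt.trans (by
        rw [div_le_one ht0]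
        exact ht)
      have hsub : (Icc (1 : ℤ) h).filter (fun y => y ∈ GSet p S h l (1 / 2 ^ j / Tn h Hn))
          = GSet p S h l (1 / 2 ^ j / Tn h Hn) := by
        ext y
        rw [Finset.mem_filter]
        constructor
        · exact fun h => h.2
        · intro hy
          refine ⟨?_, hy⟩
          unfold GSet at hy
          exact (Finset.mem_filter.mp hy).1
      have e1 : ∑ y ∈ Icc (1 : ℤ) h,
          (if y ∈ GSet p S h l (1 / 2 ^ j / Tn h Hn) ∧ 1 / (h : ℝ) < 1 / 2 ^ j / Tn h Hn then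
            50000 * (m : ℝ) * Real.sqrt (h / (1 / 2 ^ j / Tn h Hn)) else 0)
          = (GSet p S h l (1 / 2 ^ j / Tn h Hn)).card *
            (50000 * m * Real.sqrt (h / (1 / 2 ^ j / Tn h Hn))) := by
        simp only [hj, and_true]
        rw [← Finset.sum_filter, hsub, Finset.sum_const, nsmul_eq_mul]
      rw [e1]
      have h6 := lemma6n H l hl (Tn h Hn) ht hL (1 / 2 ^ j / Tn h Hn) hκ0 hκ1
      have h7 := layer_len P (1 / 2 ^ j / Tn h Hn) m hκ0 hj.le hκt hm2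
      refine le_trans (mul_le_mul_of_nonneg_right h6 (by positivity)) h7
    · have e1 : ∑ y ∈ Icc (1 : ℤ) h,
          (if y ∈ GSet p S h l (1 / 2 ^ j / Tn h Hn) ∧ 1 / (h : ℝ) < 1 / 2 ^ j / Tn h Hn then
            50000 * (m : ℝ) * Real.sqrt (h / (1 / 2 ^ j / Tn h Hn)) else 0) = 0 := by
        apply Finset.sum_eq_zero
        intro y _
        rw [if_neg]
        exact fun hc => hj hc.2
      rw [e1]
      positivity
  have h3 := Finset.sum_le_sum h2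
  rw [Finset.sum_const, nsmul_eq_mul, Finset.card_range] at h3
  have h4 : (∑ y ∈ Icc (1 : ℤ) h, ((Triv p S h (l * ((S + y : ℤ) : ZMod p))).card : ℝ))
      ≤ 2 * h * (2 * Tn h Hn + 1) := by
    have h5 : ((∑ y ∈ Icc (1 : ℤ) h, (Triv p S h (l * ((S + y : ℤ) : ZMod p))).card : ℕ) : ℝ)
        ≤ ((2 * h * R2 p S h l : ℕ) : ℝ) := by exact_mod_cast triv_sum p S h l
    rw [Nat.cast_sum, Nat.cast_mul, Nat.cast_mul, Nat.cast_ofNat] at h5
    have h6 := r2_le H l hl hl1 (Tn h Hn) ht hL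
    have h7 : 2 * (h : ℝ) * (R2 p S h l : ℝ) ≤ 2 * h * (2 * Tn h Hn + 1) :=
      mul_le_mul_of_nonneg_left h6 (by positivity)
    exact h5.trans h7
  have hlog : (0 : ℝ) ≤ Nat.log 2 h := Nat.cast_nonneg _
  push_cast at h3
  generalize Dn h Hn = D at *
  generalize Tn h Hn = t at *
  have hx : 0 < (h : ℝ) * D := by positivity
  have hb : 2 * (h : ℝ) * (2 * t + 1) ≤ 6 * (h * D) := by
    nlinarith
  have hm4 : (4 : ℝ) ≤ m ^ 2 := by nlinarith
  have hm3 : (2 : ℝ) * m ≤ m ^ 2 := by nlinarith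
  have hc : 6 * ((h : ℝ) * D) ≤ 2 * (m : ℝ) ^ 2 * (h * D) := by nlinarith
  have hd : (h : ℝ) * (40000 * m * D) ≤ 20000 * (m : ℝ) ^ 2 * (h * D) := by
    have : (h : ℝ) * (40000 * m * D) = 20000 * (2 * (m : ℝ)) * (h * D) := by ring
    rw [this]
    exact mul_le_mul_of_nonneg_right (mul_le_mul_of_nonneg_left hm3 (by norm_num)) hx.le
  have hfin : 20002 * (m : ℝ) ^ 2 * (h * D) +
      ((Nat.log 2 h : ℝ) + 1) * (18500000 * (m : ℝ) ^ 2 * (h * D))
      ≤ 20000000 * (m : ℝ) ^ 2 * (h * D) * (1 + Nat.log 2 h) := by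
    have hq : 0 ≤ (m : ℝ) ^ 2 * (h * D) := by positivity
    have hq2 : 0 ≤ (m : ℝ) ^ 2 * (h * D) * Nat.log 2 h := by positivity
    nlinarith
  linarith

end Pool.Agent.H.MP_03bc95_nt
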