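import Pool.Agent.H.MP_03bc95_nt.N.Par
import Pool.Agent.H.MP_03bc95_nt.TG1

open Finset

namespace Pool.Agent.H.MP_03bc95_nt

/-- Copy of `tset_data` in `Sb.lean` with the scales `3 k h^3` (for `3 t^8`), `h` (for `t^3`),
`2 k h^2` (for `2 t^5`). For a triple of `TSk` there are integers `w1, g1`, `|w1| < 3 k h^3 ν`,
`|g1| < h ν`, `w1 = A ρ g1`, i.e. `w1 (S3 + x) = g1 Y (S3 + y)` modulo `p` with `Y = B + A y2`
(`abk_X`, `abk_X_ne`). Both are nonzero (sizes `< p`). `m' = g1 Y`, `a = w1 - m'`,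
`b = m' (y - x) - a x`: `a S3 = b` modulo `p`. -/
theorem tsk_data {p : ℕ} [Fact p.Prime] {S : ℤ} {h m : ℕ} (H : Hyp p S h m) {k : ℝ}
    (hk0 : 0 < k) (hk1 : k ≤ 1) {A B : ℤ} (hAB : ABk p S h k A B) (S3 : ℤ) (Hn : ℕ)
    (hH1 : 1 ≤ Hn) (hS3 : ∀ x : ℤ, 1 ≤ x → x ≤ Hn → ((S3 + x : ℤ) : ZMod p) ≠ 0)
    (ν : ℝ) (hν : 0 < ν) (hν1 : ν ≤ 1) (z : ℤ × ℤ × ℤ) (hz : z ∈ TSk p S S3 h Hn k A ν) :
    ∃ w1 g1 : ℤ, w1 ≠ 0 ∧ g1 ≠ 0 ∧ |(w1 : ℝ)| ≤ 3 * k * (h : ℝ) ^ 3 * ν ∧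
      |(g1 : ℝ)| ≤ h * ν ∧
      B + A * z.1 ≠ 0 ∧ |((B + A * z.1 : ℤ) : ℝ)| ≤ 2 * k * (h : ℝ) ^ 2 ∧
      |((w1 - g1 * (B + A * z.1) : ℤ) : ℝ)| ≤ 5 * k * (h : ℝ) ^ 3 * ν ∧
      |((g1 * (B + A * z.1) * (z.2.2 - z.2.1) - (w1 - g1 * (B + A * z.1)) * z.2.1 : ℤ) : ℝ)|
        ≤ 10 * k * (h : ℝ) ^ 3 * ν * Hn ∧
      (((w1 - g1 * (B + A * z.1)) * S3 : ℤ) : ZMod p) =
        ((g1 * (B + A * z.1) * (z.2.2 - z.2.1) - (w1 - g1 * (B + A * z.1)) * z.2.1 : ℤ) :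
          ZMod p) := by
  classical
  obtain ⟨y2, x, y⟩ := z
  rw [mem_TSk] at hz
  obtain ⟨⟨⟨hy1, hy2⟩, ⟨hx1, hx2⟩, hy3, hy4⟩, hxy, hL⟩ := hz
  simp only at hy1 hy2 hx1 hx2 hy3 hy4 hxy hL ⊢
  unfold LBWk at hL
  push Not at hL
  obtain ⟨w, g, hne, hwg, hw, hg⟩ := hL
  have hA := abk_A_ne H hk1 hAB
  obtain ⟨hYz, hYa⟩ := abk_X_ne H hk1 hAB y2 hy1 hy2
  have hYc := abk_X hAB y2
  have hSy := H.hS y2 hy1 hy2
  have hSx3 := hS3 x hx1 hx2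
  have hSy3 := hS3 y hy3 hy4
  have hh1 : (1 : ℝ) ≤ (h : ℝ) := by exact_mod_cast H.hh
  have hp1 : (100000 : ℝ) * (h : ℝ) ^ 3 ≤ p := by exact_mod_cast H.hp
  have hh3 : (h : ℝ) ≤ (h : ℝ) ^ 3 := by
    calc (h : ℝ) = (h : ℝ) ^ 1 := by ring
      _ ≤ _ := pow_le_pow_right₀ hh1 (by norm_num)
  have hh0 : (0 : ℝ) < (h : ℝ) ^ 3 := by positivity
  have hh : (0 : ℝ) < (h : ℝ) := by linarith
  have hsmall : ∀ n : ℤ, |(n : ℝ)| < p → ((n : ZMod p)) = 0 → n = 0 := by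
    intro n hn h0
    rw [ZMod.intCast_zmod_eq_zero_iff_dvd] at h0
    by_contra hc
    have h1 : (p : ℤ) ≤ |n| := Int.le_of_dvd (abs_pos.2 hc) ((dvd_abs _ _).2 h0)
    have h2 : (p : ℝ) ≤ |(n : ℝ)| := by exact_mod_cast h1
    linarith
  have hgs : |(g : ℝ)| ≤ h * ν := by linarith
  have hws : |(w : ℝ)| ≤ 3 * k * (h : ℝ) ^ 3 * ν := by linarith
  have hgp : |(g : ℝ)| < p := by
    have : (h : ℝ) * ν ≤ h := by
      have := mul_le_mul_of_nonneg_left hν1 hh.le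
      linarith
    linarith
  have hwp : |(w : ℝ)| < p := by
    have h1 : k * ((h : ℝ) ^ 3 * ν) ≤ 1 * ((h : ℝ) ^ 3 * 1) := by
      apply mul_le_mul hk1 _ (by positivity) zero_le_one
      exact mul_le_mul_of_nonneg_left hν1 hh0.le
    have h2 : 3 * k * (h : ℝ) ^ 3 * ν = 3 * (k * ((h : ℝ) ^ 3 * ν)) := by ring
    rw [h2] at hws
    linarith
  have hρ : rho p S S3 y2 x y ≠ 0 := by
    unfold rho
    exact mul_ne_zero (mul_ne_zero hSy hSy3) (inv_ne_zero hSx3)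
  have hw0 : w ≠ 0 := by
    intro h0
    rw [h0] at hwg
    have h1 : (A : ZMod p) * rho p S S3 y2 x y * (g : ZMod p) = 0 := by rw [← hwg]; simp
    rcases mul_eq_zero.1 h1 with h2 | h2
    · exact mul_ne_zero hA hρ h2
    · exact hne h0 (hsmall g hgp h2)
  have hg0 : g ≠ 0 := by
    intro h0
    rw [h0] at hwg
    have h1 : (w : ZMod p) = 0 := by rw [hwg]; simp
    exact hw0 (hsmall w hwp h1)
  set Y : ℤ := B + A * y2 with hY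
  have hgY : |((g * Y : ℤ) : ℝ)| ≤ 2 * k * (h : ℝ) ^ 3 * ν := by
    push_cast
    rw [abs_mul]
    calc |(g : ℝ)| * |(Y : ℝ)| ≤ (h * ν) * (2 * k * (h : ℝ) ^ 2) :=
          mul_le_mul hgs hYa (abs_nonneg _) (by positivity)
      _ = 2 * k * (h : ℝ) ^ 3 * ν := by ring
  have ha : |((w - g * Y : ℤ) : ℝ)| ≤ 5 * k * (h : ℝ) ^ 3 * ν := by
    have e1 : ((w - g * Y : ℤ) : ℝ) = (w : ℝ) - ((g * Y : ℤ) : ℝ) := by push_cast; ring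
    rw [e1]
    calc |(w : ℝ) - ((g * Y : ℤ) : ℝ)| ≤ |(w : ℝ)| + |((g * Y : ℤ) : ℝ)| := abs_sub _ _
      _ ≤ 3 * k * (h : ℝ) ^ 3 * ν + 2 * k * (h : ℝ) ^ 3 * ν := add_le_add hws hgY
      _ = 5 * k * (h : ℝ) ^ 3 * ν := by ring
  have ex1 : (1 : ℝ) ≤ x := by exact_mod_cast hx1
  have ex2 : (x : ℝ) ≤ Hn := by exact_mod_cast hx2
  have ey1 : (1 : ℝ) ≤ y := by exact_mod_cast hy3
  have ey2 : (y : ℝ) ≤ Hn := by exact_mod_cast hy4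
  have hHn : (0 : ℝ) ≤ Hn := by positivity
  have hb : |((g * Y * (y - x) - (w - g * Y) * x : ℤ) : ℝ)| ≤ 10 * k * (h : ℝ) ^ 3 * ν * Hn := by
    have e1 : ((g * Y * (y - x) - (w - g * Y) * x : ℤ) : ℝ)
        = ((g * Y : ℤ) : ℝ) * ((y : ℝ) - x) - ((w - g * Y : ℤ) : ℝ) * x := by push_cast; ring
    rw [e1]
    have e2 : |(y : ℝ) - x| ≤ Hn := by rw [abs_le]; constructor <;> linarith
    have e3 : |(x : ℝ)| ≤ Hn := by rw [abs_le]; constructor <;> linarith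
    have hnn : 0 ≤ k * (h : ℝ) ^ 3 * ν * Hn := by positivity
    calc |((g * Y : ℤ) : ℝ) * ((y : ℝ) - x) - ((w - g * Y : ℤ) : ℝ) * x|
        ≤ |((g * Y : ℤ) : ℝ) * ((y : ℝ) - x)| + |((w - g * Y : ℤ) : ℝ) * x| := abs_sub _ _
      _ = |((g * Y : ℤ) : ℝ)| * |(y : ℝ) - x| + |((w - g * Y : ℤ) : ℝ)| * |(x : ℝ)| := by
          rw [abs_mul, abs_mul]
      _ ≤ (2 * k * (h : ℝ) ^ 3 * ν) * Hn + (5 * k * (h : ℝ) ^ 3 * ν) * Hn := by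
          apply add_le_add
          · exact mul_le_mul hgY e2 (abs_nonneg _) (by positivity)
          · exact mul_le_mul ha e3 (abs_nonneg _) (by positivity)
      _ = 7 * (k * (h : ℝ) ^ 3 * ν * Hn) := by ring
      _ ≤ 10 * (k * (h : ℝ) ^ 3 * ν * Hn) := by linarith
      _ = 10 * k * (h : ℝ) ^ 3 * ν * Hn := by ring
  refine ⟨w, g, hw0, hg0, hws, hgs, hYz, hYa, ha, hb, ?_⟩
  have hkey : (w : ZMod p) * ((S3 + x : ℤ) : ZMod p)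
      = (g : ZMod p) * (Y : ZMod p) * ((S3 + y : ℤ) : ZMod p) := by
    rw [hwg, hYc]
    unfold rho
    have e1 : (A : ZMod p) * (((S + y2 : ℤ) : ZMod p) * ((S3 + y : ℤ) : ZMod p)
        * (((S3 + x : ℤ) : ZMod p))⁻¹) * (g : ZMod p) * ((S3 + x : ℤ) : ZMod p)
        = (g : ZMod p) * ((A : ZMod p) * ((S + y2 : ℤ) : ZMod p)) * ((S3 + y : ℤ) : ZMod p)
          * ((((S3 + x : ℤ) : ZMod p))⁻¹ * ((S3 + x : ℤ) : ZMod p)) := by ring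
    rw [e1, inv_mul_cancel₀ hSx3, mul_one]
  clear_value Y
  push_cast at hkey ⊢
  linear_combination hkey

end Pool.Agent.H.MP_03bc95_nt
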