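import Pool.Agent.H.MP_03bc95_nt.N.D2
import Pool.Agent.H.MP_03bc95_nt.Sd

open Finset

namespace Pool.Agent.H.MP_03bc95_nt

/-- a real cube root of a real number `≥ 1` -/
theorem E1_cube {Λ : ℝ} (hΛ : 1 ≤ Λ) : ∃ t : ℝ, 1 ≤ t ∧ t ^ 3 = Λ := by
  refine ⟨Λ ^ ((1 : ℝ) / 3), Real.one_le_rpow hΛ (by norm_num), ?_⟩
  rw [← Real.rpow_natCast, ← Real.rpow_mul (by linarith)]
  norm_num

/-- `LBWk` is monotone in `ν` -/
theorem E1_mono {p h : ℕ} {k : ℝ} (hk0 : 0 < k) {ρ' : ZMod p} {ν ν' : ℝ} (hν : ν' ≤ ν)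
    (hL : LBWk p h k ρ' ν) : LBWk p h k ρ' ν' := by
  intro w g h1 h2
  have hh : (0 : ℝ) ≤ h := Nat.cast_nonneg h
  have h3 : (0 : ℝ) ≤ 3 * k * (h : ℝ) ^ 3 := by positivity
  rcases hL w g h1 h2 with h4 | h4
  · exact Or.inl ((mul_le_mul_of_nonneg_right hν h3).trans h4)
  · exact Or.inr ((mul_le_mul_of_nonneg_right hν hh).trans h4)

/-- the bounds for `k` -/
theorem E1_k {p h Hn : ℕ} (P : Par p h Hn) {k : ℝ} (hkτ : k ≤ 1 / Tn h Hn) :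
    k ≤ 1 ∧ k * h ≤ (Hn : ℝ) ^ 2 := by
  have hT := P.one_le_T
  have hH := P.one_le
  have hh := P.h1
  have h1 : 1 / Tn h Hn ≤ 1 := by
    rw [div_le_one (by linarith)]
    exact hT
  refine ⟨hkτ.trans h1, ?_⟩
  have h2 : 1 / Tn h Hn = (Hn : ℝ) ^ 2 / h := by
    unfold Tn
    rw [one_div_div]
  rw [h2] at hkτ
  rwa [le_div_iff₀ (by linarith)] at hkτ

/-- The pointwise bound in the structured case: `sol_structk` with a real `t ≥ 1`,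
`t^3 = max 1 (h^4/p)` (exists: cube root, see `m6_final` in `TO.lean`), and
`k t^3 ≤ 2 D`: `k ≤ 1/τ ≤ 1` and `k h^4/p ≤ Hn^2 h^3 / p ≤ D` because `Hn^3 h^2 ≤ p` (`P.pow32`). -/
theorem sol_n {p : ℕ} [Fact p.Prime] {S : ℤ} {h m Hn : ℕ} (H : Hyp p S h m) (P : Par p h Hn)
    {k : ℝ} (hk0 : 0 < k) (hkτ : k ≤ 1 / Tn h Hn) {A B : ℤ} (hAB : ABk p S h k A B)
    (ρ : ZMod p) (ν : ℝ) (hν : 0 < ν) (hW : LBWk p h k ((A : ZMod p) * ρ) ν) :
    ((Sol p S h ρ).card : ℝ) ≤ m * (601 * Dn h Hn + 2 / ν) := by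
  have hp0 : (0 : ℝ) < p := by exact_mod_cast (Fact.out : p.Prime).pos
  have hH := P.one_le
  have hh := P.h1
  have hD := P.one_le_D
  obtain ⟨hk1, hkh⟩ := E1_k P hkτ
  obtain ⟨t, ht1, ht3⟩ := E1_cube (le_max_left (1 : ℝ) ((h : ℝ) ^ 4 / p))
  have hΛ : (h : ℝ) ^ 4 ≤ t ^ 3 * p := by
    rw [ht3]
    have := le_max_right (1 : ℝ) ((h : ℝ) ^ 4 / p)
    rwa [div_le_iff₀ hp0] at this
  have h1 := sol_structk H t ht1 hΛ hk0 hk1 hAB ρ ν hν hW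
  have hp3 : h ^ 3 ≤ p := by
    have := H.hp
    omega
  have h32 := P.pow32 hp3
  have hkt : k * t ^ 3 ≤ Dn h Hn := by
    rw [ht3, mul_max_of_nonneg _ _ hk0.le]
    apply max_le
    · rw [mul_one]
      exact hk1.trans hD
    · have e1 : k * ((h : ℝ) ^ 4 / p) = (k * h) * (h : ℝ) ^ 3 / p := by ring
      rw [e1]
      unfold Dn
      rw [div_le_div_iff₀ hp0 (by linarith)]
      calc k * h * (h : ℝ) ^ 3 * Hn ≤ (Hn : ℝ) ^ 2 * (h : ℝ) ^ 3 * Hn := by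
            apply mul_le_mul_of_nonneg_right _ (by linarith)
            exact mul_le_mul_of_nonneg_right hkh (by positivity)
        _ = (h : ℝ) * ((Hn : ℝ) ^ 3 * (h : ℝ) ^ 2) := by ring
        _ ≤ h * p := mul_le_mul_of_nonneg_left h32 (by linarith)
  have h2 : 300 * k * t ^ 3 + 1 + 2 / ν ≤ 601 * Dn h Hn + 2 / ν := by
    have : 300 * k * t ^ 3 = 300 * (k * t ^ 3) := by ring
    linarith
  exact h1.trans (mul_le_mul_of_nonneg_left h2 (Nat.cast_nonneg m))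

/-- Copy of `struct_sum` in `Sd.lean`: `ν_j = 1 / (2^j D)`, `J = 1 + log`, `sol_n`, `lbwk_one_div`,
`tsk_card` (`k ν Hn ≤ 1` because `k ≤ Hn^2/h`, `ν ≤ Hn/h`, `Hn^2 ≤ h`; and
`k^2 h^6 ν Hn / p ≤ Hn^6 h^3 / p ≤ h^2`, so `#TSk ≤ 2277 m^2 Hn h^2 ν`). Layer: `≤ m^2 Hn 2277 h^2 ν` times
`303 m 2^(j+1) D`, i.e. `≤ 1400000 m^3 Hn h^2`; first part `h Hn^2 603 m D = 603 m h^2 Hn`. -/
theorem struct_sum_n {p : ℕ} [Fact p.Prime] {S : ℤ} {h m Hn : ℕ} (H : Hyp p S h m)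
    (P : Par p h Hn) {k : ℝ} (hk0 : 0 < k) (hkτ : k ≤ 1 / Tn h Hn) {A B : ℤ}
    (hAB : ABk p S h k A B) (S3 : ℤ)
    (hS3 : ∀ x : ℤ, 1 ≤ x → x ≤ Hn → ((S3 + x : ℤ) : ZMod p) ≠ 0) :
    ((∑ z ∈ (Icc (1 : ℤ) h ×ˢ Icc (1 : ℤ) Hn ×ˢ Icc (1 : ℤ) Hn).filter (fun z => z.2.1 ≠ z.2.2),
      (Sol p S h (rho p S S3 z.1 z.2.1 z.2.2)).card : ℕ) : ℝ) ≤
      2000000 * (m : ℝ) ^ 3 * Hn * (h : ℝ) ^ 2 * (1 + Nat.log 2 h) := by
  classical
  have hp0 : (0 : ℝ) < p := by exact_mod_cast (Fact.out : p.Prime).pos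
  have hHn1 : (1 : ℝ) ≤ Hn := P.one_le
  have hHn0 : (0 : ℝ) < Hn := by linarith
  have hh1 : (1 : ℝ) ≤ h := P.h1
  have hh0 : (0 : ℝ) < h := by linarith
  have hD1 : 1 ≤ Dn h Hn := P.one_le_D
  have hD0 : 0 < Dn h Hn := by linarith
  have hsq := P.sq_le
  have hsix := P.six_le
  have hHD := P.HD_eq
  obtain ⟨hk1, hkh⟩ := E1_k P hkτ
  have hm1 : (1 : ℝ) ≤ m := by
    have h1 := H.hm 1 one_ne_zero (by
      have : (1 : ℤ) ≤ (h : ℤ) := by exact_mod_cast H.hh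
      have h1 : (1 : ℤ) ≤ (h : ℤ) ^ 6 := one_le_pow₀ this
      rw [abs_one]; linarith)
    have h2 : 1 ≤ m := by
      have : 2 ≤ m := by simpa using h1
      omega
    exact_mod_cast h2
  obtain ⟨E, hE⟩ : ∃ E : Finset (ℤ × ℤ × ℤ), E = (Icc (1 : ℤ) h ×ˢ Icc (1 : ℤ) Hn ×ˢ
    Icc (1 : ℤ) Hn).filter (fun z : ℤ × ℤ × ℤ => z.2.1 ≠ z.2.2) := ⟨_, rfl⟩
  rw [← hE]
  obtain ⟨J, hJ⟩ : ∃ J : ℕ, J = 1 + Nat.log 2 h := ⟨_, rfl⟩
  obtain ⟨ν, hνdef⟩ : ∃ ν : ℕ → ℝ, ∀ j, ν j = 1 / (2 ^ j * Dn h Hn) := ⟨_, fun _ => rfl⟩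
  have hνpos : ∀ j, 0 < ν j := fun j => by rw [hνdef]; positivity
  have h2j : ∀ j : ℕ, (1 : ℝ) ≤ 2 ^ j := fun j => one_le_pow₀ (by norm_num)
  have hνD : ∀ j, ν j ≤ 1 / Dn h Hn := by
    intro j
    rw [hνdef]
    apply one_div_le_one_div_of_le hD0
    have := h2j j
    nlinarith
  have hν1 : ∀ j, ν j ≤ 1 := by
    intro j
    refine (hνD j).trans ?_
    rw [div_le_one hD0]
    exact hD1
  -- `ν_j h ≤ Hn`
  have hνh : ∀ j, ν j * h ≤ Hn := by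
    intro j
    calc ν j * h ≤ 1 / Dn h Hn * h := mul_le_mul_of_nonneg_right (hνD j) hh0.le
      _ = Hn := by
        rw [← hHD]
        field_simp
  have hkν : ∀ j, k * ν j * Hn ≤ 1 := by
    intro j
    have h1 : (k * h) * (ν j * h) ≤ (Hn : ℝ) ^ 2 * Hn :=
      mul_le_mul hkh (hνh j) (mul_nonneg (hνpos j).le hh0.le) (by positivity)
    have h2 : (k * ν j * Hn) * (h : ℝ) ^ 2 ≤ 1 * (h : ℝ) ^ 2 := by
      calc (k * ν j * Hn) * (h : ℝ) ^ 2 = ((k * h) * (ν j * h)) * Hn := by ring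
        _ ≤ (Hn : ℝ) ^ 2 * Hn * Hn := mul_le_mul_of_nonneg_right h1 hHn0.le
        _ = (Hn : ℝ) ^ 2 * (Hn : ℝ) ^ 2 := by ring
        _ ≤ (h : ℝ) * h := mul_le_mul hsq hsq (by positivity) hh0.le
        _ = 1 * (h : ℝ) ^ 2 := by ring
    exact le_of_mul_le_mul_right h2 (by positivity)
  have hνJ : ν J ≤ 1 / (h : ℝ) := by
    rw [hνdef]
    apply one_div_le_one_div_of_le hh0
    have h1 : h < 2 ^ (Nat.log 2 h + 1) := Nat.lt_pow_succ_log_self (by norm_num) h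
    have h2 : (h : ℝ) ≤ 2 ^ J := by
      have : h ≤ 2 ^ J := by rw [hJ, add_comm]; exact h1.le
      exact_mod_cast this
    have h3 := h2j J
    nlinarith
  -- the pointwise bound
  have hpt : ∀ z ∈ E, ((Sol p S h (rho p S S3 z.1 z.2.1 z.2.2)).card : ℝ) ≤
      603 * m * Dn h Hn + ∑ j ∈ range J,
        (if z ∈ TSk p S S3 h Hn k A (ν j) then 2 * m * 2 ^ (j + 1) * Dn h Hn else 0) := by
    intro z hz
    rw [hE, mem_filter] at hz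
    obtain ⟨hzb, hzne⟩ := hz
    simp only [mem_product, mem_Icc] at hzb
    have hsumnn : 0 ≤ ∑ j ∈ range J,
        (if z ∈ TSk p S S3 h Hn k A (ν j) then 2 * (m : ℝ) * 2 ^ (j + 1) * Dn h Hn else 0) := by
      refine sum_nonneg fun j _ => ?_
      split_ifs
      · positivity
      · exact le_rfl
    by_cases h0 : LBWk p h k ((A : ZMod p) * rho p S S3 z.1 z.2.1 z.2.2) (ν 0)
    · have h1 := sol_n H P hk0 hkτ hAB _ (ν 0) (hνpos 0) h0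
      have h2 : 2 / ν 0 = 2 * Dn h Hn := by
        rw [hνdef, pow_zero, one_mul, div_div_eq_mul_div, div_one]
      rw [h2] at h1
      have h3 : (m : ℝ) * (601 * Dn h Hn + 2 * Dn h Hn) = 603 * m * Dn h Hn := by ring
      linarith
    · obtain ⟨i, hiJ, hi1, hi2⟩ := Sd_exists
        (fun j => LBWk p h k ((A : ZMod p) * rho p S S3 z.1 z.2.1 z.2.2) (ν j)) h0
        (J := J) (E1_mono hk0 hνJ (lbwk_one_div H hk0 hk1 _))
      have h1 := sol_n H P hk0 hkτ hAB _ (ν (i + 1)) (hνpos (i + 1)) hi2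
      have h2 : 2 / ν (i + 1) = 2 * (2 ^ (i + 1) * Dn h Hn) := by
        rw [hνdef, div_div_eq_mul_div, div_one]
      rw [h2] at h1
      have hmem : z ∈ TSk p S S3 h Hn k A (ν i) := by
        rw [mem_TSk]
        exact ⟨hzb, hzne, hi1⟩
      have h3 : (if z ∈ TSk p S S3 h Hn k A (ν i) then 2 * (m : ℝ) * 2 ^ (i + 1) * Dn h Hn else 0) ≤
          ∑ j ∈ range J,
          (if z ∈ TSk p S S3 h Hn k A (ν j) then 2 * (m : ℝ) * 2 ^ (j + 1) * Dn h Hn else 0) := by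
        refine single_le_sum (f := fun j => if z ∈ TSk p S S3 h Hn k A (ν j) then
          2 * (m : ℝ) * 2 ^ (j + 1) * Dn h Hn else 0) (fun j _ => ?_) (mem_range.2 hiJ)
        split_ifs
        · positivity
        · exact le_rfl
      rw [if_pos hmem] at h3
      have h7 : (0 : ℝ) ≤ m * Dn h Hn := by positivity
      have h8 : (m : ℝ) * (601 * Dn h Hn + 2 * (2 ^ (i + 1) * Dn h Hn)) =
        601 * (m * Dn h Hn) + 2 * m * 2 ^ (i + 1) * Dn h Hn := by ring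
      have h9 : 603 * (m : ℝ) * Dn h Hn = 603 * (m * Dn h Hn) := by ring
      linarith
  -- summation
  have hEc : (E.card : ℝ) ≤ h * (Hn * Hn) := by
    have h1 : E.card ≤ h * (Hn * Hn) := by
      rw [hE]
      refine (card_filter_le _ _).trans ?_
      rw [card_product, card_product, Int.card_Icc, Int.card_Icc]
      simp
    exact_mod_cast h1
  have hTc : ∀ j, ((TSk p S S3 h Hn k A (ν j)).card : ℝ) * (2 * m * 2 ^ (j + 1) * Dn h Hn) ≤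
      9108 * (m : ℝ) ^ 3 * Hn * (h : ℝ) ^ 2 := by
    intro j
    have h1 := tsk_card H hk0 hk1 hAB S3 Hn P.hH1 hS3 (ν j) (hνpos j) (hν1 j) (hkν j)
    have h2 : k ^ 2 * (h : ℝ) ^ 6 * ν j ^ 2 * Hn / p ≤ (h : ℝ) ^ 2 * ν j := by
      rw [div_le_iff₀ hp0]
      have e1 : (k * h) ^ 2 ≤ ((Hn : ℝ) ^ 2) ^ 2 :=
        pow_le_pow_left₀ (by positivity) hkh 2
      calc k ^ 2 * (h : ℝ) ^ 6 * ν j ^ 2 * Hn
          = (k * h) ^ 2 * ((ν j * h) * ((h : ℝ) ^ 3 * ν j * Hn)) := by ring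
        _ ≤ ((Hn : ℝ) ^ 2) ^ 2 * (Hn * ((h : ℝ) ^ 3 * ν j * Hn)) := by
          have hv := (hνpos j).le
          apply mul_le_mul e1 _ (by positivity) (by positivity)
          exact mul_le_mul_of_nonneg_right (hνh j) (by positivity)
        _ = ((h : ℝ) ^ 2 * ν j) * ((Hn : ℝ) ^ 6 * h) := by ring
        _ ≤ ((h : ℝ) ^ 2 * ν j) * p :=
          mul_le_mul_of_nonneg_left hsix (mul_nonneg (by positivity) (hνpos j).le)
    have h3 : ((TSk p S S3 h Hn k A (ν j)).card : ℝ) ≤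
        (m : ℝ) ^ 2 * Hn * (2277 * ((h : ℝ) ^ 2 * ν j)) := by
      refine h1.trans (mul_le_mul_of_nonneg_left ?_ (by positivity))
      have e : 2275 * k ^ 2 * (h : ℝ) ^ 6 * ν j ^ 2 * Hn / p =
        2275 * (k ^ 2 * (h : ℝ) ^ 6 * ν j ^ 2 * Hn / p) := by ring
      rw [e]
      linarith
    have hq : (0 : ℝ) < 2 ^ j := by positivity
    calc ((TSk p S S3 h Hn k A (ν j)).card : ℝ) * (2 * m * 2 ^ (j + 1) * Dn h Hn)
        ≤ ((m : ℝ) ^ 2 * Hn * (2277 * ((h : ℝ) ^ 2 * ν j))) * (2 * m * 2 ^ (j + 1) * Dn h Hn) :=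
          mul_le_mul_of_nonneg_right h3 (by positivity)
      _ = 9108 * (m : ℝ) ^ 3 * Hn * (h : ℝ) ^ 2 := by
          rw [hνdef, pow_succ]
          field_simp
          ring
  have hsum : ((∑ z ∈ E, (Sol p S h (rho p S S3 z.1 z.2.1 z.2.2)).card : ℕ) : ℝ) ≤
      E.card * (603 * m * Dn h Hn) +
        ∑ _j ∈ range J, 9108 * (m : ℝ) ^ 3 * Hn * (h : ℝ) ^ 2 := by
    rw [Nat.cast_sum]
    refine (sum_le_sum hpt).trans ?_
    rw [sum_add_distrib, sum_const, nsmul_eq_mul, sum_comm]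
    refine add_le_add le_rfl (sum_le_sum fun j _ => ?_)
    rw [sum_ite_mem, sum_const, nsmul_eq_mul]
    refine le_trans (mul_le_mul_of_nonneg_right ?_ (by positivity)) (hTc j)
    exact_mod_cast card_le_card inter_subset_right
  refine hsum.trans ?_
  rw [sum_const, card_range, nsmul_eq_mul]
  have hJr : (J : ℝ) = 1 + Nat.log 2 h := by rw [hJ]; push_cast; ring
  rw [← hJr]
  have hJ1 : (1 : ℝ) ≤ J := by
    rw [hJr]
    have : (0 : ℝ) ≤ Nat.log 2 h := Nat.cast_nonneg _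
    linarith
  have hfirst : (E.card : ℝ) * (603 * m * Dn h Hn) ≤ 603 * ((m : ℝ) ^ 3 * Hn * (h : ℝ) ^ 2) := by
    have e1 : (E.card : ℝ) * (603 * m * Dn h Hn) ≤ (h * (Hn * Hn)) * (603 * m * Dn h Hn) :=
      mul_le_mul_of_nonneg_right hEc (by positivity)
    have e3 : ((h : ℝ) * (Hn * Hn)) * (603 * m * Dn h Hn) = 603 * (m * (Hn * (h : ℝ) ^ 2)) := by
      calc ((h : ℝ) * (Hn * Hn)) * (603 * m * Dn h Hn)
          = 603 * m * Hn * h * ((Hn : ℝ) * Dn h Hn) := by ring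
        _ = 603 * (m * (Hn * (h : ℝ) ^ 2)) := by rw [hHD]; ring
    have e4 : (m : ℝ) ≤ m ^ 3 := by
      have := pow_le_pow_right₀ hm1 (show 1 ≤ 3 by norm_num)
      simpa using this
    have e5 : (m : ℝ) * (Hn * (h : ℝ) ^ 2) ≤ (m : ℝ) ^ 3 * (Hn * (h : ℝ) ^ 2) :=
      mul_le_mul_of_nonneg_right e4 (by positivity)
    have e6 : (m : ℝ) ^ 3 * (Hn * (h : ℝ) ^ 2) = (m : ℝ) ^ 3 * Hn * (h : ℝ) ^ 2 := by ring
    linarith
  obtain ⟨X, hX⟩ : ∃ X : ℝ, X = (m : ℝ) ^ 3 * Hn * (h : ℝ) ^ 2 := ⟨_, rfl⟩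
  have hX0 : 0 ≤ X := by rw [hX]; positivity
  have e9 : (J : ℝ) * (9108 * (m : ℝ) ^ 3 * Hn * (h : ℝ) ^ 2) = 9108 * (X * J) := by rw [hX]; ring
  have e10 : 2000000 * (m : ℝ) ^ 3 * Hn * (h : ℝ) ^ 2 * J = 2000000 * (X * J) := by rw [hX]; ring
  have e11 : X ≤ X * J := by nlinarith
  have e12 : 0 ≤ X * J := mul_nonneg hX0 (by linarith)
  rw [e9, e10]
  rw [← hX] at hfirst
  linarith

end Pool.Agent.H.MP_03bc95_nt
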