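import Pool.Agent.H.MP_03bc95_nt.N.C4
import Pool.Agent.H.MP_03bc95_nt.N.E1
import Pool.Agent.H.MP_03bc95_nt.Ma

open Finset

namespace Pool.Agent.H.MP_03bc95_nt

/-- Copy of `m6_le` in `Ma.lean`. Case `LBS (1/τ)`: diagonal `e4_one`, off-diagonal `e4n`
(`Hn D = h`). Otherwise `exists_abk H (Tn h Hn)` and `struct_sum_n`. -/
theorem m6n {p : ℕ} [Fact p.Prime] {S : ℤ} {h m Hn : ℕ} (H : Hyp p S h m) (P : Par p h Hn)
    (S3 : ℤ) (hS3 : ∀ x : ℤ, 1 ≤ x → x ≤ Hn → ((S3 + x : ℤ) : ZMod p) ≠ 0) :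
    (M6 (Itv p S h) (Itv p S h) (Itv p S3 Hn) : ℝ) ≤
      100000000 * (m : ℝ) ^ 3 * Hn * (h : ℝ) ^ 2 * (1 + Nat.log 2 h) := by
  classical
  have hh1 : (1 : ℝ) ≤ h := by exact_mod_cast H.hh
  have hp : (100000 : ℝ) * (h : ℝ) ^ 3 ≤ p := by exact_mod_cast H.hp
  have hh3 : (h : ℝ) ≤ (h : ℝ) ^ 3 := by
    have := pow_le_pow_right₀ hh1 (show 1 ≤ 3 by norm_num)
    simpa using this
  have hhp : h < p := by
    have : (h : ℝ) < p := by linarith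
    exact_mod_cast this
  have hHh : Hn ≤ h := by
    have h1 := P.hH1
    have h2 := P.hH2
    have h3 : Hn ≤ Hn ^ 2 := Nat.le_self_pow two_ne_zero Hn
    exact h3.trans h2
  have hHp : Hn < p := lt_of_le_of_lt hHh hhp
  have hm2 : (2 : ℝ) ≤ m := by exact_mod_cast two_le_of_hyp H
  have hHn0 : (0 : ℝ) < Hn := by exact_mod_cast P.hH1
  have hlog : (0 : ℝ) ≤ Nat.log 2 h := Nat.cast_nonneg _
  have hcI : ((Icc (1 : ℤ) Hn).card : ℝ) = Hn := by simp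
  rw [m6_eq hhp hHp H.hS hS3]
  set I := Icc (1 : ℤ) Hn with hI
  let l : ℤ → ℤ → ZMod p := fun x y => ((S3 + y : ℤ) : ZMod p) * (((S3 + x : ℤ) : ZMod p))⁻¹
  -- the diagonal
  have hdiag : ∀ x ∈ I, (E4 p S h (l x x) : ℝ) ≤ 2 * m * (h : ℝ) ^ 2 := by
    intro x hx
    have hx' := mem_Icc.1 hx
    have h1 : l x x = 1 := mul_inv_cancel₀ (hS3 x hx'.1 hx'.2)
    rw [h1]
    exact_mod_cast e4_one H
  have hl0 : ∀ x ∈ I, ∀ y ∈ I, l x y ≠ 0 := by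
    intro x hx y hy
    have hx' := mem_Icc.1 hx
    have hy' := mem_Icc.1 hy
    exact mul_ne_zero (hS3 y hy'.1 hy'.2) (inv_ne_zero (hS3 x hx'.1 hx'.2))
  have hl1 : ∀ x ∈ I, ∀ y ∈ I, x ≠ y → l x y ≠ 1 := by
    intro x hx y hy hxy h1
    have hx' := mem_Icc.1 hx
    have hy' := mem_Icc.1 hy
    apply hxy
    have h2 : ((S3 + y : ℤ) : ZMod p) = ((S3 + x : ℤ) : ZMod p) :=
      (mul_inv_eq_one₀ (hS3 x hx'.1 hx'.2)).1 h1
    exact Ma_inj S3 hHp hx' hy' h2.symm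
  have hdsum : ∀ c : ℝ, ∑ x ∈ I, ∑ y ∈ I, (if x = y then c else 0) = Hn * c := by
    intro c
    have h1 : ∀ x ∈ I, ∑ y ∈ I, (if x = y then c else 0) = c := by
      intro x hx
      rw [sum_ite_eq, if_pos hx]
    rw [sum_congr rfl h1, sum_const, nsmul_eq_mul, hcI]
  have hX : (0 : ℝ) < Hn * (h : ℝ) ^ 2 := by positivity
  have hD0 : (0 : ℝ) < Dn h Hn := by
    have := P.one_le_D
    linarith
  have h6 : (Hn : ℝ) * (2 * m * (h : ℝ) ^ 2) ≤
      2 * m * (Hn * (h : ℝ) ^ 2) * (1 + Nat.log 2 h) := by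
    have h7 : (0 : ℝ) ≤ 2 * m * (Hn * (h : ℝ) ^ 2) := by positivity
    nlinarith
  have hm23 : (m : ℝ) ^ 2 ≤ (m : ℝ) ^ 3 := pow_le_pow_right₀ (by linarith) (by norm_num)
  have hm13 : (m : ℝ) ≤ (m : ℝ) ^ 3 := by
    have := pow_le_pow_right₀ (show (1 : ℝ) ≤ m by linarith) (show 1 ≤ 3 by norm_num)
    simpa using this
  have hm3 : (0 : ℝ) ≤ (m : ℝ) ^ 3 := by positivity
  by_cases hL : LBS p S h (1 / Tn h Hn)
  · have h1 : ∀ x ∈ I, ∀ y ∈ I, (E4 p S h (l x y) : ℝ) ≤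
        (if x = y then 2 * m * (h : ℝ) ^ 2 else 0) +
          20000000 * (m : ℝ) ^ 2 * (h * Dn h Hn) * (1 + Nat.log 2 h) := by
      intro x hx y hy
      by_cases hxy : x = y
      · subst hxy
        rw [if_pos rfl]
        have h2 := hdiag x hx
        have h3 : (0 : ℝ) ≤ 20000000 * (m : ℝ) ^ 2 * (h * Dn h Hn) * (1 + Nat.log 2 h) := by
          positivity
        linarith
      · rw [if_neg hxy, zero_add]
        exact e4n H P _ (hl0 x hx y hy) (hl1 x hx y hy hxy) hL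
    have h2 : ((∑ x ∈ I, ∑ y ∈ I, E4 p S h (l x y) : ℕ) : ℝ) ≤
        Hn * (2 * m * (h : ℝ) ^ 2) +
          Hn * (Hn * (20000000 * (m : ℝ) ^ 2 * (h * Dn h Hn) * (1 + Nat.log 2 h))) := by
      push_cast
      refine (sum_le_sum fun x hx => sum_le_sum fun y hy => h1 x hx y hy).trans (le_of_eq ?_)
      simp only [sum_add_distrib]
      rw [hdsum, sum_const, sum_const, nsmul_eq_mul, nsmul_eq_mul, hcI]
    refine h2.trans ?_
    have h4 : (Hn : ℝ) * (Hn * (20000000 * (m : ℝ) ^ 2 * (h * Dn h Hn) * (1 + Nat.log 2 h))) =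
        20000000 * (m : ℝ) ^ 2 * (Hn * (h : ℝ) ^ 2) * (1 + Nat.log 2 h) := by
      calc (Hn : ℝ) * (Hn * (20000000 * (m : ℝ) ^ 2 * (h * Dn h Hn) * (1 + Nat.log 2 h))) =
          20000000 * (m : ℝ) ^ 2 * (Hn * (h * (Hn * Dn h Hn))) * (1 + Nat.log 2 h) := by ring
        _ = _ := by
          rw [P.HD_eq]
          ring
    have h5 : 2 * (m : ℝ) + 20000000 * (m : ℝ) ^ 2 ≤ 100000000 * (m : ℝ) ^ 3 := by linarith
    calc (Hn : ℝ) * (2 * m * (h : ℝ) ^ 2) +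
          Hn * (Hn * (20000000 * (m : ℝ) ^ 2 * (h * Dn h Hn) * (1 + Nat.log 2 h)))
        ≤ 2 * m * (Hn * (h : ℝ) ^ 2) * (1 + Nat.log 2 h) +
          20000000 * (m : ℝ) ^ 2 * (Hn * (h : ℝ) ^ 2) * (1 + Nat.log 2 h) := add_le_add h6 h4.le
      _ = (2 * (m : ℝ) + 20000000 * (m : ℝ) ^ 2) * ((Hn * (h : ℝ) ^ 2) * (1 + Nat.log 2 h)) := by
          ring
      _ ≤ 100000000 * (m : ℝ) ^ 3 * ((Hn * (h : ℝ) ^ 2) * (1 + Nat.log 2 h)) :=
          mul_le_mul_of_nonneg_right h5 (by positivity)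
      _ = _ := by ring
  · obtain ⟨k, A, B, hk0, hkt, hAB⟩ := exists_abk H (Tn h Hn) P.one_le_T hL
    have hst := struct_sum_n H P hk0 hkt hAB S3 hS3
    have hoff : ∑ x ∈ I, ∑ y ∈ I, (if x = y then 0 else E4 p S h (l x y)) =
        ∑ z ∈ (Icc (1 : ℤ) h ×ˢ Icc (1 : ℤ) Hn ×ˢ Icc (1 : ℤ) Hn).filter
          (fun z => z.2.1 ≠ z.2.2), (Sol p S h (rho p S S3 z.1 z.2.1 z.2.2)).card := by
      rw [sum_filter, sum_product_right, sum_product]
      refine sum_congr rfl fun x _ => sum_congr rfl fun y _ => ?_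
      by_cases hxy : x = y
      · subst hxy
        simp
      · rw [if_neg hxy, e4_eq]
        refine sum_congr rfl fun y2 _ => ?_
        rw [if_pos hxy]
        congr 2
        simp only [rho, l]
        ring
    have h1 : ∀ x ∈ I, ∀ y ∈ I, (E4 p S h (l x y) : ℝ) ≤
        (if x = y then 2 * m * (h : ℝ) ^ 2 else 0) +
          ((if x = y then 0 else E4 p S h (l x y) : ℕ) : ℝ) := by
      intro x hx y hy
      by_cases hxy : x = y
      · subst hxy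
        rw [if_pos rfl, if_pos rfl, Nat.cast_zero, add_zero]
        exact hdiag x hx
      · rw [if_neg hxy, if_neg hxy, zero_add]
    have h2 : ((∑ x ∈ I, ∑ y ∈ I, E4 p S h (l x y) : ℕ) : ℝ) ≤
        Hn * (2 * m * (h : ℝ) ^ 2) +
          ((∑ x ∈ I, ∑ y ∈ I, (if x = y then 0 else E4 p S h (l x y)) : ℕ) : ℝ) := by
      rw [Nat.cast_sum, Nat.cast_sum]
      simp only [Nat.cast_sum]
      refine (sum_le_sum fun x hx => sum_le_sum fun y hy => h1 x hx y hy).trans (le_of_eq ?_)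
      simp only [sum_add_distrib]
      rw [hdsum]
    rw [hoff] at h2
    refine h2.trans ?_
    have h5 : 2 * (m : ℝ) + 2000000 * (m : ℝ) ^ 3 ≤ 100000000 * (m : ℝ) ^ 3 := by linarith
    calc (Hn : ℝ) * (2 * m * (h : ℝ) ^ 2) + _
        ≤ 2 * m * (Hn * (h : ℝ) ^ 2) * (1 + Nat.log 2 h) +
          2000000 * (m : ℝ) ^ 3 * Hn * (h : ℝ) ^ 2 * (1 + Nat.log 2 h) := add_le_add h6 hst
      _ = (2 * (m : ℝ) + 2000000 * (m : ℝ) ^ 3) * ((Hn * (h : ℝ) ^ 2) * (1 + Nat.log 2 h)) := by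
          ring
      _ ≤ 100000000 * (m : ℝ) ^ 3 * ((Hn * (h : ℝ) ^ 2) * (1 + Nat.log 2 h)) :=
          mul_le_mul_of_nonneg_right h5 (by positivity)
      _ = _ := by ring

end Pool.Agent.H.MP_03bc95_nt
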