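import Pool.Agent.H.MP_03bc95_nt.N.F1
import Pool.Agent.H.MP_03bc95_nt.TO

open Finset

namespace Pool.Agent.H.MP_03bc95_nt

theorem G1_zero {p : ℕ} {S : ℤ} {h : ℕ} (hS : ∀ x : ℤ, 1 ≤ x → x ≤ h → ((S + x : ℤ) : ZMod p) ≠ 0) :
    (0 : ZMod p) ∉ Itv p S h := by
  classical
  unfold Itv
  rw [Finset.mem_image]
  rintro ⟨x, hx, h0⟩
  rw [Finset.mem_Icc] at hx
  exact hS x hx.1 hx.2 h0

theorem G1_final {δ C : ℝ} (hC : ∀ (p : ℕ) [Fact p.Prime]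
    (S : ℤ) (h : ℕ), 1 ≤ h → 100000 * h ^ 3 ≤ p →
    (∀ x : ℤ, 1 ≤ x → x ≤ h → ((S + x : ℤ) : ZMod p) ≠ 0) →
    (M6 (Itv p S h) (Itv p S h) (Itv p S h) : ℝ) ≤
      C * (h : ℝ) ^ (3 + δ) * (max 1 ((h : ℝ) ^ 4 / p)) ^ ((2 : ℝ) / 3))
    (p : ℕ) [Fact p.Prime] (S : ℤ) (h : ℕ) (hh : 1 ≤ h) (hp : 100000 * h ^ 3 ≤ p)
    (hS : ∀ x : ℤ, 1 ≤ x → x ≤ h → ((S + x : ℤ) : ZMod p) ≠ 0) (h4 : h ^ 4 ≤ p) :
    (M6 (Itv p S h) (Itv p S h) (Itv p S h) : ℝ) ≤ C * ((h : ℝ) ^ 3 * (h : ℝ) ^ δ) := by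
  have hp0 : (0 : ℝ) < p := by exact_mod_cast (Fact.out : p.Prime).pos
  have hh0 : (0 : ℝ) < h := by exact_mod_cast hh
  have h5 : (h : ℝ) ^ 4 / p ≤ 1 := by
    rw [div_le_one hp0]
    exact_mod_cast h4
  have h1 := hC p S h hh hp hS
  rw [max_eq_left h5, Real.one_rpow, mul_one, Real.rpow_add hh0] at h1
  have h3 : (h : ℝ) ^ (3 : ℝ) = (h : ℝ) ^ 3 := by
    rw [← Real.rpow_natCast]
    norm_num
  rw [h3] at h1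
  exact h1

/-- The sixth moment bound without `Hn^2 ≤ h`. If `Hn^2 ≤ h`: `m6n` with `exists_m δ`
(`m^3 (1+log) ≤ C h^δ`). Otherwise `h^4 = h^3 h ≤ Hn^6 h ≤ p` and `Hn^4 ≤ Hn^6 ≤ p`, `100000 Hn^3 ≤ p`
(`(Hn^3)^2 ≤ p`, `10^10 ≤ p`): `m6_final` for both intervals with the maxima equal to `1`
(`h^4/p ≤ 1`, `Hn^4/p ≤ 1`), and `m6_two`: `M6(h,h,Hn)^3 ≤ M6(h,h,h)^2 M6(Hn,Hn,Hn)
≤ C^3 h^(6+2δ) Hn^(3+δ) ≤ (C h^(2+δ) Hn^(1+δ))^3`. -/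
theorem m6_mixed (δ : ℝ) (hδ : 0 < δ) : ∃ C : ℝ, 1 ≤ C ∧ ∀ (p : ℕ) [Fact p.Prime]
    (S S3 : ℤ) (h Hn : ℕ), 1 ≤ h → 1 ≤ Hn → 10000000000 ≤ p → 100000 * h ^ 3 ≤ p →
    Hn ^ 6 * h ≤ p →
    (∀ x : ℤ, 1 ≤ x → x ≤ h → ((S + x : ℤ) : ZMod p) ≠ 0) →
    (∀ x : ℤ, 1 ≤ x → x ≤ Hn → ((S3 + x : ℤ) : ZMod p) ≠ 0) →
    (M6 (Itv p S h) (Itv p S h) (Itv p S3 Hn) : ℝ) ≤
      C * ((h : ℝ) ^ 2 * (h : ℝ) ^ δ) * ((Hn : ℝ) * (Hn : ℝ) ^ δ) := by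
  obtain ⟨C₁, hC₁, hm⟩ := exists_m δ hδ
  obtain ⟨C₂, hC₂, hf⟩ := m6_final δ hδ
  refine ⟨100000000 * C₁ + C₂, by linarith, fun p _ S S3 h Hn hh hH1 hp10 hp hH6 hS hS3 => ?_⟩
  have hh0 : (0 : ℝ) < h := by exact_mod_cast hh
  have hH0 : (0 : ℝ) < Hn := by exact_mod_cast hH1
  have hh1 : (1 : ℝ) ≤ h := by exact_mod_cast hh
  have hH1' : (1 : ℝ) ≤ Hn := by exact_mod_cast hH1
  have ha : 1 ≤ (h : ℝ) ^ δ := Real.one_le_rpow hh1 hδ.le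
  have hb : 1 ≤ (Hn : ℝ) ^ δ := Real.one_le_rpow hH1' hδ.le
  obtain ⟨a, haa⟩ : ∃ a : ℝ, a = (h : ℝ) ^ δ := ⟨_, rfl⟩
  obtain ⟨b, hbb⟩ : ∃ b : ℝ, b = (Hn : ℝ) ^ δ := ⟨_, rfl⟩
  rw [← haa] at ha ⊢
  rw [← hbb] at hb ⊢
  have ha0 : 0 < a := by linarith
  have hb0 : 0 < b := by linarith
  rcases le_or_gt (Hn ^ 2) h with hcase | hcase
  · -- the short interval is short
    obtain ⟨m, hdiv, hbd⟩ := hm h hh
    rw [← haa] at hbd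
    have h1 := m6n (m := m) ⟨hh, hp, hS, hdiv⟩ ⟨hH1, hcase, hH6⟩ S3 hS3
    calc (M6 (Itv p S h) (Itv p S h) (Itv p S3 Hn) : ℝ)
        ≤ 100000000 * (m : ℝ) ^ 3 * Hn * (h : ℝ) ^ 2 * (1 + Nat.log 2 h) := h1
      _ = 100000000 * Hn * (h : ℝ) ^ 2 * ((m : ℝ) ^ 3 * (1 + Nat.log 2 h)) := by ring
      _ ≤ 100000000 * Hn * (h : ℝ) ^ 2 * (C₁ * a) :=
          mul_le_mul_of_nonneg_left hbd (by positivity)
      _ = (100000000 * C₁) * ((h : ℝ) ^ 2 * a) * (Hn * 1) := by ring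
      _ ≤ (100000000 * C₁ + C₂) * ((h : ℝ) ^ 2 * a) * (Hn * b) := by
          apply mul_le_mul
          · exact mul_le_mul_of_nonneg_right (by linarith) (by positivity)
          · exact mul_le_mul_of_nonneg_left hb hH0.le
          · positivity
          · have : 0 ≤ 100000000 * C₁ + C₂ := by linarith
            positivity
  · -- both intervals are below p^(1/4)
    have hH6' : Hn ^ 6 ≤ p := le_trans (Nat.le_mul_of_pos_right _ hh) hH6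
    have h4 : h ^ 4 ≤ p := by
      calc h ^ 4 = h ^ 3 * h := by ring
        _ ≤ (Hn ^ 2) ^ 3 * h := Nat.mul_le_mul_right _ (Nat.pow_le_pow_left hcase.le 3)
        _ = Hn ^ 6 * h := by ring
        _ ≤ p := hH6
    have hH4 : Hn ^ 4 ≤ p := le_trans (Nat.pow_le_pow_right hH1 (by norm_num)) hH6'
    have hH3 : 100000 * Hn ^ 3 ≤ p := by
      have h2 : (100000 * Hn ^ 3) ^ 2 ≤ p ^ 2 := by
        calc (100000 * Hn ^ 3) ^ 2 = 10000000000 * Hn ^ 6 := by ring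
          _ ≤ p * p := Nat.mul_le_mul hp10 hH6'
          _ = p ^ 2 := by ring
      exact (Nat.pow_le_pow_iff_left two_ne_zero).1 h2
    have e1 := G1_final hf p S h hh hp hS h4
    have e2 := G1_final hf p S3 Hn hH1 hH3 hS3 hH4
    rw [← haa] at e1
    rw [← hbb] at e2
    have e3 := m6_two (Itv p S h) (Itv p S3 Hn) (G1_zero hS) (G1_zero hS3)
    have e4 : (M6 (Itv p S h) (Itv p S h) (Itv p S3 Hn) : ℝ) ^ 3 ≤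
        (M6 (Itv p S h) (Itv p S h) (Itv p S h) : ℝ) ^ 2 *
          (M6 (Itv p S3 Hn) (Itv p S3 Hn) (Itv p S3 Hn) : ℝ) := by
      exact_mod_cast e3
    have hx0 : (0 : ℝ) ≤ M6 (Itv p S h) (Itv p S h) (Itv p S h) := Nat.cast_nonneg _
    have hy0 : (0 : ℝ) ≤ M6 (Itv p S3 Hn) (Itv p S3 Hn) (Itv p S3 Hn) := Nat.cast_nonneg _
    have hz0 : (0 : ℝ) ≤ M6 (Itv p S h) (Itv p S h) (Itv p S3 Hn) := Nat.cast_nonneg _
    have hC0 : 0 < C₂ := by linarith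
    have e5 : (M6 (Itv p S h) (Itv p S h) (Itv p S3 Hn) : ℝ) ^ 3 ≤
        (C₂ * ((h : ℝ) ^ 2 * a) * (Hn * b)) ^ 3 := by
      calc (M6 (Itv p S h) (Itv p S h) (Itv p S3 Hn) : ℝ) ^ 3
          ≤ (M6 (Itv p S h) (Itv p S h) (Itv p S h) : ℝ) ^ 2 *
            (M6 (Itv p S3 Hn) (Itv p S3 Hn) (Itv p S3 Hn) : ℝ) := e4
        _ ≤ (C₂ * ((h : ℝ) ^ 3 * a)) ^ 2 * (C₂ * ((Hn : ℝ) ^ 3 * b)) := by
            apply mul_le_mul (pow_le_pow_left₀ hx0 e1 2) e2 hy0 (by positivity)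
        _ = C₂ ^ 3 * (h : ℝ) ^ 6 * (Hn : ℝ) ^ 3 * (a ^ 2 * b) := by ring
        _ ≤ C₂ ^ 3 * (h : ℝ) ^ 6 * (Hn : ℝ) ^ 3 * (a ^ 3 * b ^ 3) := by
            apply mul_le_mul_of_nonneg_left _ (by positivity)
            apply mul_le_mul (pow_le_pow_right₀ ha (by norm_num)) _ hb0.le (by positivity)
            calc b = b ^ 1 := (pow_one b).symm
              _ ≤ b ^ 3 := pow_le_pow_right₀ hb (by norm_num)
        _ = (C₂ * ((h : ℝ) ^ 2 * a) * (Hn * b)) ^ 3 := by ring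
    have e6 : (M6 (Itv p S h) (Itv p S h) (Itv p S3 Hn) : ℝ) ≤ C₂ * ((h : ℝ) ^ 2 * a) * (Hn * b) :=
      (pow_le_pow_iff_left₀ hz0 (by positivity) three_ne_zero).1 e5
    refine e6.trans ?_
    apply mul_le_mul_of_nonneg_right _ (by positivity)
    exact mul_le_mul_of_nonneg_right (by linarith) (by positivity)

end Pool.Agent.H.MP_03bc95_nt
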