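import Pool.Agent.H.MP_03bc95_nt.N.G1
import Pool.Agent.H.MP_03bc95_nt.Mc

open Finset
open scoped Pointwise

namespace Pool.Agent.H.MP_03bc95_nt

/-- Copy of `clean` in `Mc.lean` with `m6_mixed (ε)` in place of `m6_clean`:
`(h1 h2 Hn)^2 ≤ |I1 I2 I3| · √(M11 M22) ≤ |I1 I2 I3| C (h1 h2)^(1+δ/2) Hn^(1+δ)`; take `δ = ε`. -/
theorem clean3 (ε : ℝ) (hε : 0 < ε) : ∃ c : ℝ, 0 < c ∧ ∀ (p : ℕ) [Fact p.Prime]
    (S1 S2 S3 : ℤ) (h1 h2 Hn : ℕ), 1 ≤ h1 → 1 ≤ h2 → 1 ≤ Hn → 10000000000 ≤ p →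
    100000 * h1 ^ 3 ≤ p → 100000 * h2 ^ 3 ≤ p → Hn ^ 6 * h1 ≤ p → Hn ^ 6 * h2 ≤ p →
    (∀ x : ℤ, 1 ≤ x → x ≤ h1 → ((S1 + x : ℤ) : ZMod p) ≠ 0) →
    (∀ x : ℤ, 1 ≤ x → x ≤ h2 → ((S2 + x : ℤ) : ZMod p) ≠ 0) →
    (∀ x : ℤ, 1 ≤ x → x ≤ Hn → ((S3 + x : ℤ) : ZMod p) ≠ 0) →
    c * ((h1 : ℝ) * h2 * Hn) ^ (1 - ε) ≤ ((Itv p S1 h1 * Itv p S2 h2 * Itv p S3 Hn).card : ℝ) := by
  obtain ⟨C, hC1, hC⟩ := m6_mixed ε hε
  refine ⟨1 / C, by positivity, ?_⟩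
  intro p _ S1 S2 S3 h1 h2 Hn hh1 hh2 hHn hp10 hp1 hp2 hH1 hH2 hS1 hS2 hS3
  have hlt : ∀ h : ℕ, 1 ≤ h → 100000 * h ^ 3 ≤ p → h < p := by
    intro h hh hp
    have h3 : h ≤ h ^ 3 := Nat.le_self_pow (by norm_num) h
    omega
  have hlt1 := hlt h1 hh1 hp1
  have hlt2 := hlt h2 hh2 hp2
  have hltH : Hn < p := by
    have h6 : Hn ^ 6 ≤ p := (Nat.le_mul_of_pos_right _ (by omega)).trans hH1
    rcases Nat.lt_or_ge Hn 2 with h | h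
    · omega
    · exact lt_of_lt_of_le (lt_self_pow₀ (by omega) (by norm_num)) h6
  have a1 := hC p S1 S3 h1 Hn hh1 hHn hp10 hp1 hH1 hS1 hS3
  have a2 := hC p S2 S3 h2 Hn hh2 hHn hp10 hp2 hH2 hS2 hS3
  have a3 := m6_sq_le (Itv p S1 h1) (Itv p S2 h2) (Itv p S3 Hn) (zero_notMem_itv hS1)
    (zero_notMem_itv hS2) (zero_notMem_itv hS3)
  have a4 := prod_card (Itv p S1 h1) (Itv p S2 h2) (Itv p S3 Hn)
  rw [itv_card S1 hlt1, itv_card S2 hlt2, itv_card S3 hltH] at a4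
  set P : ℕ := (Itv p S1 h1 * Itv p S2 h2 * Itv p S3 Hn).card with hP
  set M : ℕ := M6 (Itv p S1 h1) (Itv p S2 h2) (Itv p S3 Hn) with hM
  have a3' : (M : ℝ) ^ 2 ≤ (M6 (Itv p S1 h1) (Itv p S1 h1) (Itv p S3 Hn) : ℝ) *
      (M6 (Itv p S2 h2) (Itv p S2 h2) (Itv p S3 Hn) : ℝ) := by exact_mod_cast a3
  have a4' : ((h1 : ℝ) * h2 * Hn) ^ 2 ≤ P * M := by exact_mod_cast a4
  have x1 : (1 : ℝ) ≤ h1 := by exact_mod_cast hh1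
  have x2 : (1 : ℝ) ≤ h2 := by exact_mod_cast hh2
  have xH : (1 : ℝ) ≤ Hn := by exact_mod_cast hHn
  have x10 : (0 : ℝ) < h1 := by linarith
  have x20 : (0 : ℝ) < h2 := by linarith
  have xH0 : (0 : ℝ) < Hn := by linarith
  have hC0 : (0 : ℝ) < C := by linarith
  set X : ℝ := (h1 : ℝ) * h2 with hX
  have hX1 : 1 ≤ X := by nlinarith
  have hX0 : 0 < X := by linarith
  have hXH0 : 0 < X * Hn := by positivity
  have a5 : (M : ℝ) ≤ C * (X * Hn) * (X ^ (ε / 2) * (Hn : ℝ) ^ ε) := by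
    refine (pow_le_pow_iff_left₀ (by positivity) (by positivity) (two_ne_zero)).1
      (a3'.trans ((mul_le_mul a1 a2 (by positivity) (by positivity)).trans (le_of_eq ?_)))
    have e1 : (h1 : ℝ) ^ ε * (h2 : ℝ) ^ ε = X ^ (ε / 2) * X ^ (ε / 2) := by
      rw [← Real.mul_rpow x10.le x20.le, ← Real.rpow_add hX0]
      congr 1
      ring
    calc C * ((h1 : ℝ) ^ 2 * (h1 : ℝ) ^ ε) * ((Hn : ℝ) * (Hn : ℝ) ^ ε) *
          (C * ((h2 : ℝ) ^ 2 * (h2 : ℝ) ^ ε) * ((Hn : ℝ) * (Hn : ℝ) ^ ε)) =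
        C ^ 2 * ((h1 : ℝ) * h2) ^ 2 * ((h1 : ℝ) ^ ε * (h2 : ℝ) ^ ε) *
          ((Hn : ℝ) * (Hn : ℝ) ^ ε) ^ 2 := by ring
      _ = _ := by rw [e1]; ring
  have a5' : X ^ (ε / 2) * (Hn : ℝ) ^ ε ≤ (X * Hn) ^ ε := by
    rw [Real.mul_rpow hX0.le xH0.le]
    exact mul_le_mul_of_nonneg_right
      (Real.rpow_le_rpow_of_exponent_le hX1 (by linarith)) (by positivity)
  have hP0 : (0 : ℝ) ≤ P := Nat.cast_nonneg _
  have a6 : (X * Hn) ^ 2 ≤ P * (C * (X * Hn) * (X * Hn) ^ ε) :=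
    a4'.trans (mul_le_mul_of_nonneg_left
      (a5.trans (mul_le_mul_of_nonneg_left a5' (by positivity))) hP0)
  have hXe : 0 < (X * Hn) ^ ε := Real.rpow_pos_of_pos hXH0 ε
  have a7 : X * Hn ≤ P * C * (X * Hn) ^ ε := by
    refine le_of_mul_le_mul_right ?_ hXH0
    calc X * Hn * (X * Hn) = (X * Hn) ^ 2 := by ring
      _ ≤ _ := a6
      _ = _ := by ring
  have a8 : (X * Hn) ^ (1 - ε) ≤ P * C := by
    refine le_of_mul_le_mul_right ?_ hXe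
    have h3 : (X * Hn) ^ (1 - ε) * (X * Hn) ^ ε = X * Hn := by
      rw [← Real.rpow_add hXH0]
      norm_num
    rw [h3]
    exact a7
  rw [div_mul_eq_mul_div, one_mul, div_le_iff₀ (by positivity)]
  exact a8

end Pool.Agent.H.MP_03bc95_nt
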