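import Pool.Agent.H.MP_03bc95_nt.TM
import Pool.Agent.H.MP_03bc95_nt.TN
import Pool.Agent.H.MP_03bc95_nt.TO
import Pool.Agent.H.MP_03bc95_nt.TG2

/-!
# MP_03bc95 : one short interval, parameters

`h` the length of the two long intervals (`10^5 h^3 ≤ p`), `Hn` the length of the short one with
`Hn^6 h ≤ p`, `Hn^2 ≤ h`. `D = h / Hn`, `τ = h / Hn^2` (so `D^2 = h τ`).
-/

open Finset

namespace Pool.Agent.H.MP_03bc95_nt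

/-- The conditions on the lengths. -/
structure Par (p h Hn : ℕ) : Prop where
  hH1 : 1 ≤ Hn
  hH2 : Hn ^ 2 ≤ h
  hH6 : Hn ^ 6 * h ≤ p

/-- `D = h / Hn`. -/
noncomputable def Dn (h Hn : ℕ) : ℝ := (h : ℝ) / Hn

/-- `τ = h / Hn^2`. -/
noncomputable def Tn (h Hn : ℕ) : ℝ := (h : ℝ) / (Hn : ℝ) ^ 2

theorem Par.one_le {p h Hn : ℕ} (P : Par p h Hn) : (1 : ℝ) ≤ Hn := by exact_mod_cast P.hH1

theorem Par.h1 {p h Hn : ℕ} (P : Par p h Hn) : (1 : ℝ) ≤ h := by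
  have h1 := P.hH1
  have h2 := P.hH2
  have h3 : 1 ≤ Hn ^ 2 := Nat.one_le_pow _ _ h1
  exact_mod_cast h3.trans h2

theorem Par.sq_le {p h Hn : ℕ} (P : Par p h Hn) : (Hn : ℝ) ^ 2 ≤ h := by exact_mod_cast P.hH2

theorem Par.six_le {p h Hn : ℕ} (P : Par p h Hn) : (Hn : ℝ) ^ 6 * h ≤ p := by
  exact_mod_cast P.hH6

/-- `1 ≤ τ`. -/
theorem Par.one_le_T {p h Hn : ℕ} (P : Par p h Hn) : 1 ≤ Tn h Hn := by
  have h1 := P.one_le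
  unfold Tn
  rw [le_div_iff₀ (by positivity), one_mul]
  exact P.sq_le

/-- `Hn ≤ D`. -/
theorem Par.H_le_D {p h Hn : ℕ} (P : Par p h Hn) : (Hn : ℝ) ≤ Dn h Hn := by
  have h1 := P.one_le
  unfold Dn
  rw [le_div_iff₀ (by linarith)]
  have := P.sq_le
  nlinarith

/-- `1 ≤ D`. -/
theorem Par.one_le_D {p h Hn : ℕ} (P : Par p h Hn) : 1 ≤ Dn h Hn := P.one_le.trans P.H_le_D

/-- `τ ≤ D`. -/
theorem Par.T_le_D {p h Hn : ℕ} (P : Par p h Hn) : Tn h Hn ≤ Dn h Hn := by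
  have h1 := P.one_le
  have h0 := P.h1
  unfold Tn Dn
  apply div_le_div_of_nonneg_left (by linarith) (by linarith)
  nlinarith

/-- `h τ = D^2`. -/
theorem Par.hT_eq {p h Hn : ℕ} (P : Par p h Hn) : (h : ℝ) * Tn h Hn = Dn h Hn ^ 2 := by
  have h1 := P.one_le
  have h2 : (Hn : ℝ) ≠ 0 := by linarith
  unfold Tn Dn
  field_simp

/-- `Hn D = h`. -/
theorem Par.HD_eq {p h Hn : ℕ} (P : Par p h Hn) : (Hn : ℝ) * Dn h Hn = h := by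
  have h1 := P.one_le
  have h2 : (Hn : ℝ) ≠ 0 := by linarith
  unfold Dn
  field_simp

/-- `D ≤ h`. -/
theorem Par.D_le_h {p h Hn : ℕ} (P : Par p h Hn) : Dn h Hn ≤ h := by
  have h1 := P.one_le
  have h0 := P.h1
  unfold Dn
  exact div_le_self (by linarith) h1

/-- `D = Hn τ`. -/
theorem Par.D_eq {p h Hn : ℕ} (P : Par p h Hn) : Dn h Hn = Hn * Tn h Hn := by
  have h1 := P.one_le
  have h2 : (Hn : ℝ) ≠ 0 := by linarith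
  unfold Tn Dn
  field_simp

/-- `h^8 ≤ D^3 p^2` (from `Hn^6 h ≤ p` and `h^3 ≤ p`). -/
theorem Par.pow8 {p h Hn : ℕ} (P : Par p h Hn) (hp : h ^ 3 ≤ p) :
    (h : ℝ) ^ 8 ≤ Dn h Hn ^ 3 * (p : ℝ) ^ 2 := by
  have h1 := P.one_le
  have h0 := P.h1
  have h6 := P.six_le
  have h3 : (h : ℝ) ^ 3 ≤ p := by exact_mod_cast hp
  have hp0 : (0 : ℝ) ≤ p := Nat.cast_nonneg p
  have a : ((Hn : ℝ) ^ 3 * (h : ℝ) ^ 5) ^ 2 ≤ ((p : ℝ) ^ 2) ^ 2 := by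
    calc ((Hn : ℝ) ^ 3 * (h : ℝ) ^ 5) ^ 2 = ((Hn : ℝ) ^ 6 * h) * ((h : ℝ) ^ 3) ^ 3 := by ring
      _ ≤ p * (p : ℝ) ^ 3 := by
        apply mul_le_mul h6 _ (by positivity) hp0
        exact pow_le_pow_left₀ (by positivity) h3 3
      _ = ((p : ℝ) ^ 2) ^ 2 := by ring
  have b : (Hn : ℝ) ^ 3 * (h : ℝ) ^ 5 ≤ (p : ℝ) ^ 2 :=
    (pow_le_pow_iff_left₀ (by positivity) (by positivity) two_ne_zero).1 a
  unfold Dn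
  rw [div_pow, div_mul_eq_mul_div, le_div_iff₀ (by positivity)]
  calc (h : ℝ) ^ 8 * (Hn : ℝ) ^ 3 = (h : ℝ) ^ 3 * ((Hn : ℝ) ^ 3 * (h : ℝ) ^ 5) := by ring
    _ ≤ (h : ℝ) ^ 3 * (p : ℝ) ^ 2 := mul_le_mul_of_nonneg_left b (by positivity)

/-- `Hn^3 h^2 ≤ p`. -/
theorem Par.pow32 {p h Hn : ℕ} (P : Par p h Hn) (hp : h ^ 3 ≤ p) :
    (Hn : ℝ) ^ 3 * (h : ℝ) ^ 2 ≤ p := by
  have h1 := P.one_le
  have h0 := P.h1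
  have h6 := P.six_le
  have h3 : (h : ℝ) ^ 3 ≤ p := by exact_mod_cast hp
  have hp0 : (0 : ℝ) ≤ p := Nat.cast_nonneg p
  apply (pow_le_pow_iff_left₀ (by positivity) hp0 two_ne_zero).1
  calc ((Hn : ℝ) ^ 3 * (h : ℝ) ^ 2) ^ 2 = ((Hn : ℝ) ^ 6 * h) * (h : ℝ) ^ 3 := by ring
    _ ≤ (p : ℝ) * p := mul_le_mul h6 h3 (by positivity) hp0
    _ = (p : ℝ) ^ 2 := by ring

/-- The exceptional triples `(y2,x,y)`, `x ≠ y`, for which `LBWk (A ρ) ν` fails,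
`ρ = (S+y2)(S3+y)/(S3+x)`. -/
noncomputable def TSk (p : ℕ) [Fact p.Prime] (S S3 : ℤ) (h Hn : ℕ) (k : ℝ) (A : ℤ) (ν : ℝ) :
    Finset (ℤ × ℤ × ℤ) := by
  classical
  exact (Icc (1 : ℤ) h ×ˢ Icc (1 : ℤ) Hn ×ˢ Icc (1 : ℤ) Hn).filter fun z =>
    z.2.1 ≠ z.2.2 ∧ ¬ LBWk p h k ((A : ZMod p) * rho p S S3 z.1 z.2.1 z.2.2) ν

theorem mem_TSk {p : ℕ} [Fact p.Prime] {S S3 : ℤ} {h Hn : ℕ} {k : ℝ} {A : ℤ} {ν : ℝ}
    {z : ℤ × ℤ × ℤ} : z ∈ TSk p S S3 h Hn k A ν ↔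
      ((1 ≤ z.1 ∧ z.1 ≤ h) ∧ (1 ≤ z.2.1 ∧ z.2.1 ≤ Hn) ∧ (1 ≤ z.2.2 ∧ z.2.2 ≤ Hn)) ∧
      z.2.1 ≠ z.2.2 ∧ ¬ LBWk p h k ((A : ZMod p) * rho p S S3 z.1 z.2.1 z.2.2) ν := by
  classical
  simp only [TSk, Finset.mem_filter, Finset.mem_product, Finset.mem_Icc]

end Pool.Agent.H.MP_03bc95_nt
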